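import Pool.Agent.R693.C.Fib
import Pool.Agent.R693.R.Inj

/-!
The module of a prime ideal of the enveloping algebra of `W_{≥-1}`, and its generic fibre.
-/

set_option autoImplicit false
set_option linter.unusedSectionVars false

namespace Pool.Agent.R693.C

open Polynomial (monomial eval₂ C)
open Pool.Agent.R693.W

section conc
variable {F : Type} [Field F] [CharZero F] {A : Type} [Ring A] [Algebra F A] {e : ℕ → A}

variable (F) in
/-- Left multiplication. -/
noncomputable def lamV (d : ℕ) (J : Ideal A) : A →+* Module.End (Rd F ℕ d) (VV (ι := ℕ) J) where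
  toFun a :=
    { toFun := fun f n => a • f n
      map_add' := fun f g => by
        funext n
        simp only [Pi.add_apply, smul_add]
      map_smul' := fun p f => by
        funext n
        rw [smul_VV, RingHom.id_apply, smul_VV]
        exact (act_map (C := F) (ι := ℕ) (M := A ⧸ J) (M' := A ⧸ J)
          { toFun := fun x => a • x
            map_add' := fun x y => smul_add _ _ _
            map_smul' := fun r x => smul_comm _ _ _ } (p : W.K F ℕ) f n).symm }
  map_one' := by
    apply LinearMap.ext; intro f; funext n
    exact one_smul _ _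
  map_mul' a b := by
    apply LinearMap.ext; intro f; funext n
    exact mul_smul _ _ _
  map_zero' := by
    apply LinearMap.ext; intro f; funext n
    exact zero_smul _ _
  map_add' a b := by
    apply LinearMap.ext; intro f; funext n
    exact add_smul _ _ _

lemma lamV_apply (d : ℕ) (J : Ideal A) (a : A) (f : VV (ι := ℕ) J) (n : G ℕ) :
    lamV F d J a f n = a • f n := rfl

lemma rhoP_mul_X {R M : Type} [CommRing R] [AddCommGroup M] [Module R M] (T : ℕ → Module.End R M)
    (p q : Polynomial R) (h : ∀ n, rhoP T (p * Polynomial.X ^ n) = 0) : rhoP T (p * q) = 0 := by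
  induction q using Polynomial.induction_on' with
  | add q q' hq hq' => rw [mul_add, map_add, hq, hq', add_zero]
  | monomial n a =>
    have h1 : p * monomial n a = a • (p * Polynomial.X ^ n) := by
      rw [← Polynomial.C_mul_X_pow_eq_monomial, Polynomial.smul_eq_C_mul]; ring
    rw [h1, map_smul, h, smul_zero]

lemma rhoP_mul_X' {R M : Type} [CommRing R] [AddCommGroup M] [Module R M] (T : ℕ → Module.End R M)
    (p q : Polynomial R) {m : M} (h : ∀ n, rhoP T (p * Polynomial.X ^ n) m = 0) :
    rhoP T (p * q) m = 0 := by
  induction q using Polynomial.induction_on' with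
  | add q q' hq hq' => rw [mul_add, map_add, LinearMap.add_apply, hq, hq', add_zero]
  | monomial n a =>
    have h1 : p * monomial n a = a • (p * Polynomial.X ^ n) := by
      rw [← Polynomial.C_mul_X_pow_eq_monomial, Polynomial.smul_eq_C_mul]; ring
    rw [h1, map_smul, LinearMap.smul_apply, h, smul_zero]

/-- Evaluation of the recurrence. -/
lemma rec_eval (J : Ideal A) (d N : ℕ) (u : A) (p : Polynomial (Rd F ℕ d)) (n : ℕ) (l : G ℕ) :
    rhoP (fun j => lamV F d J (e j)) (p * Polynomial.X ^ n) (lamV F d J u (eta F e J d N)) l =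
      Submodule.Quotient.mk (act A (p.eval₂ (algebraMap (Rd F ℕ d) (W.K F ℕ)) (X d))
        (fun l => e (l d) * (u * eta0 F e d N l)) (Function.update l d n)) := by
  induction p using Polynomial.induction_on' with
  | add p q hp hq =>
    rw [add_mul, map_add, LinearMap.add_apply, Pi.add_apply, hp, hq, Polynomial.eval₂_add, map_add,
      LinearMap.add_apply, Pi.add_apply]
    rfl
  | monomial j c =>
    rw [Polynomial.monomial_mul_X_pow, rhoP_monomial, LinearMap.smul_apply, ← map_smul, ← map_smul,
      lamV_apply, lamV_apply, smul_eta, Polynomial.eval₂_monomial, act_mul]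
    have h8 : (X d : W.K F ℕ) ^ j = AddMonoidAlgebra.single (j • dl d) 1 := by
      unfold X
      rw [AddMonoidAlgebra.single_pow, one_pow]
    have h7 : act A (X d ^ j : W.K F ℕ) (fun l : G ℕ => e (l d) * (u * eta0 F e d N l)) =
        fun l : G ℕ => (fun i => e (i + j)) (l d) * (u * eta0 F e d N l) := by
      funext l
      rw [h8, act_single, one_smul]
      beta_reduce
      congr 2
      · rw [Pi.add_apply, Pi.smul_apply, dl_self]
        simp [Lab.one]
      · apply Ind_eta0 d N
        intro b hb
        rw [Pi.add_apply, Pi.smul_apply, dl_ne hb.symm, smul_zero, add_zero]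
    have h9 := act_Rd (A := A) c.2 (fun i => e (i + j)) (fun l => u * eta0 F e d N l)
      (Function.update l d n)
    have h10 : (algebraMap (Rd F ℕ d) (W.K F ℕ) c) = (c : W.K F ℕ) := rfl
    rw [h7, h10, h9, Function.update_self, act_left]
    have h11 : act A (c : W.K F ℕ) (eta0 F e d N) (Function.update l d n) =
        act A (c : W.K F ℕ) (eta0 F e d N) l := by
      apply Ind_act (Ind_eta0 d N) (c : W.K F ℕ)
      intro b hb
      rw [Function.update_of_ne hb]
    rw [h11, add_comm n j]
    rfl

/-- The generic fibre. -/
theorem conc (he : IsW F e) (hgen : ∀ x : A, ∃ k, x ∈ Fl F e k) {P : TwoSidedIdeal A}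
    (hP : IsPrimeT P) (h0 : P ≠ ⊥) : FibC F A P e := by
  classical
  obtain ⟨d, N, hV, hη⟩ := exists_min (F := F) he hgen h0 hP.1
  set J : Ideal A := P.asIdeal with hJ
  have hmemJ : ∀ x, x ∈ J ↔ x ∈ P := fun x => by rw [hJ, TwoSidedIdeal.mem_asIdeal]
  set M0 : Submodule (Rd F ℕ d) (VV (ι := ℕ) J) :=
    Submodule.span (Rd F ℕ d) (Set.range fun u : A => lamV F d J u (eta F e J d N)) with hM0
  have hst : ∀ a : A, ∀ f ∈ M0, lamV F d J a f ∈ M0 := by
    intro a f hf
    rw [hM0] at hf
    induction hf using Submodule.span_induction with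
    | mem y hy =>
      obtain ⟨u, rfl⟩ := hy
      apply Submodule.subset_span
      exact ⟨a * u, by beta_reduce; rw [map_mul]; rfl⟩
    | zero => rw [map_zero]; exact Submodule.zero_mem _
    | add y z _ _ hy hz => rw [map_add]; exact Submodule.add_mem _ hy hz
    | smul p y _ hy => rw [map_smul]; exact Submodule.smul_mem _ _ hy
  have hη0 : eta F e J d N ∈ M0 := by
    apply Submodule.subset_span
    exact ⟨1, by beta_reduce; rw [map_one]; rfl⟩
  have hne : Nontrivial M0 := by
    obtain ⟨n, hn⟩ := hη N
    refine ⟨⟨eta F e J d N, hη0⟩, 0, fun h => hn ?_⟩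
    have h1 := congrFun (congrArg Subtype.val h) n
    rw [← hmemJ]
    exact (Submodule.Quotient.mk_eq_zero J).mp h1
  set lam : A →+* Module.End (Rd F ℕ d) M0 :=
    { toFun := fun a => (lamV F d J a).restrict (hst a)
      map_one' := by
        apply LinearMap.ext; intro m; apply Subtype.ext
        change lamV F d J 1 m = m
        rw [map_one]; rfl
      map_mul' := fun a b => by
        apply LinearMap.ext; intro m; apply Subtype.ext
        change lamV F d J (a * b) m = lamV F d J a (lamV F d J b m)
        rw [map_mul]; rfl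
      map_zero' := by
        apply LinearMap.ext; intro m; apply Subtype.ext
        change lamV F d J 0 m = 0
        rw [map_zero]; rfl
      map_add' := fun a b => by
        apply LinearMap.ext; intro m; apply Subtype.ext
        change lamV F d J (a + b) m = lamV F d J a m + lamV F d J b m
        rw [map_add]; rfl } with hlam
  have hval : ∀ a (m : M0), ((lam a m : M0) : VV (ι := ℕ) J) = lamV F d J a m := fun a m => rfl
  have hrho : ∀ (p : Polynomial (Rd F ℕ d)) (m : M0),
      ((rhoP (fun j => lam (e j)) p m : M0) : VV (ι := ℕ) J) =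
        rhoP (fun j => lamV F d J (e j)) p m := by
    intro p m
    induction p using Polynomial.induction_on' with
    | add p q hp hq =>
      rw [map_add, map_add, LinearMap.add_apply, LinearMap.add_apply, Submodule.coe_add, hp, hq]
    | monomial n a =>
      rw [rhoP_monomial, rhoP_monomial, LinearMap.smul_apply, LinearMap.smul_apply,
        Submodule.coe_smul, hval]
  set x : Fin d → Rd F ℕ d := fun i => ⟨X (i : ℕ), X_mem_Rd i.2⟩ with hx
  set Q : Polynomial (Rd F ℕ d) := ∏ i : Fin d, (Polynomial.X - Polynomial.C (x i)) with hQ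
  refine fib (R := Rd F ℕ d) (M := M0) lam ?_ ?_ ?_ x ?_
  · intro r
    apply LinearMap.ext; intro m; apply Subtype.ext
    rw [hval, Module.algebraMap_end_apply, Submodule.coe_smul, smul_VV]
    have h3 : ((algebraMap F (Rd F ℕ d) r : Rd F ℕ d) : W.K F ℕ) = algebraMap F (W.K F ℕ) r := rfl
    rw [h3, AlgHom.commutes, Module.algebraMap_end_apply]
    funext n
    rw [lamV_apply, algebraMap_smul]
    rfl
  · intro a ha
    apply LinearMap.ext; intro m; apply Subtype.ext
    rw [hval]
    funext n
    rw [lamV_apply]
    obtain ⟨y, hy⟩ := Submodule.Quotient.mk_surjective J ((m : VV (ι := ℕ) J) n)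
    rw [← hy, ← Submodule.Quotient.mk_smul]
    exact (Submodule.Quotient.mk_eq_zero J).mpr ((hmemJ _).mpr (P.mul_mem_right _ _ ha))
  · intro m hm a h
    obtain ⟨n, hn⟩ : ∃ n, (m : VV (ι := ℕ) J) n ≠ 0 := by
      by_contra hcon
      push Not at hcon
      exact hm (Subtype.ext (funext hcon))
    obtain ⟨y, hy⟩ := Submodule.Quotient.mk_surjective J ((m : VV (ι := ℕ) J) n)
    have hyP : y ∉ P := by
      intro h'
      apply hn
      rw [← hy]
      exact (Submodule.Quotient.mk_eq_zero J).mpr ((hmemJ _).mpr h')
    refine (hP.elt fun b => ?_).resolve_right hyP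
    have h1 := congrFun (congrArg Subtype.val (h b)) n
    rw [hval, hval, lamV_apply, lamV_apply, ← hy, ← Submodule.Quotient.mk_smul,
      ← Submodule.Quotient.mk_smul] at h1
    have h2 := (Submodule.Quotient.mk_eq_zero J).mp h1
    rw [hmemJ, smul_eq_mul, smul_eq_mul, ← mul_assoc] at h2
    exact h2
  · have key : ∀ f ∈ M0, ∃ r, ∀ q : Polynomial (Rd F ℕ d),
        rhoP (fun j => lamV F d J (e j)) (Q ^ r * q) f = 0 := by
      intro f hf
      rw [hM0] at hf
      induction hf using Submodule.span_induction with
      | mem y hy =>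
        obtain ⟨u, rfl⟩ := hy
        obtain ⟨r, hr⟩ := hgen u
        refine ⟨2 * N + r, fun q => rhoP_mul_X' _ _ _ fun n => ?_⟩
        funext l
        rw [rec_eval]
        have h1 : (Q ^ (2 * N + r)).eval₂ (algebraMap (Rd F ℕ d) (W.K F ℕ)) (X d) =
            chk F d d ^ (2 * N + r) := by
          rw [Polynomial.eval₂_pow]
          congr 1
          rw [hQ, Polynomial.eval₂_finsetProd]
          unfold chk
          rw [← Fin.prod_univ_eq_prod_range (fun i => (X d : W.K F ℕ) - X i) d]
          refine Finset.prod_congr rfl fun i _ => ?_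
          rw [Polynomial.eval₂_sub, Polynomial.eval₂_X, Polynomial.eval₂_C]
          rfl
        rw [h1]
        have h2 := rec_elt he (P := J) (j := d) (k := d) (N := N)
          (by
            have : J.restrictScalars F = subsp F P := by
              ext z
              rw [mem_subsp]
              exact hmemJ z
            rw [this]
            exact hV) le_rfl hr [] (Function.update l d n)
        simp only [wd_nil, one_mul, List.length_nil, add_zero] at h2
        exact (Submodule.Quotient.mk_eq_zero J).mpr h2
      | zero => exact ⟨0, fun q => map_zero _⟩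
      | add y z _ _ hy hz =>
        obtain ⟨r1, h1⟩ := hy
        obtain ⟨r2, h2⟩ := hz
        refine ⟨r1 + r2, fun q => ?_⟩
        rw [map_add, pow_add]
        have h3 := h1 (Q ^ r2 * q)
        have h4 := h2 (Q ^ r1 * q)
        rw [← mul_assoc] at h3 h4
        rw [h3, mul_comm (Q ^ r1) (Q ^ r2), h4, add_zero]
      | smul p y _ hy =>
        obtain ⟨r, h⟩ := hy
        exact ⟨r, fun q => by rw [map_smul, h, smul_zero]⟩
    intro m
    obtain ⟨r, hr⟩ := key m m.2
    refine ⟨r, fun n => ?_⟩
    apply Subtype.ext
    rw [hrho]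
    exact hr _

end conc

end Pool.Agent.R693.C
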