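import Mathlib

/-!
From a module over a commutative Noetherian ring with a commuting action of `A` to a vector space.
-/

set_option autoImplicit false
set_option linter.unusedSectionVars false

namespace Pool.Agent.R693.C

open Polynomial

section rho
variable {R M : Type} [CommRing R] [AddCommGroup M] [Module R M]

/-- The operator attached to a polynomial. -/
noncomputable def rhoP (T : ℕ → Module.End R M) : R[X] →ₗ[R] Module.End R M :=
  Polynomial.lsum fun j => LinearMap.toSpanSingleton R (Module.End R M) (T j)

lemma rhoP_monomial (T : ℕ → Module.End R M) (n : ℕ) (a : R) :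
    rhoP T (monomial n a) = a • T n := by
  unfold rhoP
  rw [Polynomial.lsum_apply, Polynomial.sum_monomial_index _ _ (by simp)]
  simp

end rho

section loc
variable {F A R M : Type} [Field F] [CharZero F] [Ring A] [Algebra F A] [CommRing R] [IsDomain R]
  [Algebra F R] [AddCommGroup M] [Module R M] [Nontrivial M]

/-- The localised operator. -/
noncomputable def lm (T : Module.End R M) :
    Module.End (FractionRing R) (LocalizedModule (nonZeroDivisors R) M) :=
  (IsLocalizedModule.map (nonZeroDivisors R) (LocalizedModule.mkLinearMap (nonZeroDivisors R) M)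
    (LocalizedModule.mkLinearMap (nonZeroDivisors R) M) T).extendScalarsOfIsLocalization
    (nonZeroDivisors R) (FractionRing R)

lemma lm_mk (T : Module.End R M) (m : M) (t : nonZeroDivisors R) :
    lm T (LocalizedModule.mk m t) = LocalizedModule.mk (T m) t :=
  IsLocalizedModule.map_LocalizedModules _ T m t

lemma smul_mk' (a : R) (m : M) (t : nonZeroDivisors R) :
    (algebraMap R (FractionRing R) a) • LocalizedModule.mk m t = LocalizedModule.mk (a • m) t := by
  rw [← Localization.mk_one_eq_algebraMap, LocalizedModule.mk_smul_mk, one_mul]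

lemma mk_add' (m m' : M) (t : nonZeroDivisors R) :
    LocalizedModule.mk (m + m') t = LocalizedModule.mk m t + LocalizedModule.mk m' t := by
  rw [LocalizedModule.mk_add_mk, ← smul_add, LocalizedModule.mk_cancel_common_left]

lemma mk_zero_iff (htf : ∀ (r : R) (m : M), r ≠ 0 → r • m = 0 → m = 0) (m : M)
    (t : nonZeroDivisors R) : LocalizedModule.mk m t = 0 ↔ m = 0 := by
  constructor
  · intro h
    rw [← LocalizedModule.zero_mk t, LocalizedModule.mk_eq] at h
    obtain ⟨u, hu⟩ := h
    rw [smul_zero, smul_zero] at hu
    have h1 := htf _ _ (nonZeroDivisors.ne_zero u.2) hu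
    exact htf _ _ (nonZeroDivisors.ne_zero t.2) h1
  · rintro rfl
    exact LocalizedModule.zero_mk t

lemma lm_add (T T' : Module.End R M) : lm (T + T') = lm T + lm T' := by
  apply LinearMap.ext
  intro v
  induction v using LocalizedModule.induction_on with
  | _ m t => rw [LinearMap.add_apply, lm_mk, lm_mk, lm_mk, LinearMap.add_apply, mk_add']

lemma lm_mul (T T' : Module.End R M) : lm (T * T') = lm T * lm T' := by
  apply LinearMap.ext
  intro v
  induction v using LocalizedModule.induction_on with
  | _ m t => rw [Module.End.mul_apply, lm_mk, lm_mk, lm_mk, Module.End.mul_apply]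

lemma lm_alg (a : R) : lm (algebraMap R (Module.End R M) a) =
    algebraMap (FractionRing R) _ (algebraMap R (FractionRing R) a) := by
  apply LinearMap.ext
  intro v
  induction v using LocalizedModule.induction_on with
  | _ m t =>
    rw [lm_mk, Module.algebraMap_end_apply, Module.algebraMap_end_apply, smul_mk']

lemma lm_zero : lm (0 : Module.End R M) = 0 := by
  have h := lm_add (0 : Module.End R M) 0
  rw [add_zero] at h
  exact left_eq_add.mp h

lemma lm_one : lm (1 : Module.End R M) = 1 := by
  apply LinearMap.ext
  intro v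
  induction v using LocalizedModule.induction_on with
  | _ m t => rw [lm_mk, Module.End.one_apply, Module.End.one_apply]

lemma rhoP_lm (T : ℕ → Module.End R M) (p : R[X]) (m : M) (t : nonZeroDivisors R) :
    rhoP (fun j => lm (T j)) (p.map (algebraMap R (FractionRing R))) (LocalizedModule.mk m t) =
      LocalizedModule.mk (rhoP T p m) t := by
  induction p using Polynomial.induction_on' with
  | add p q hp hq =>
    rw [Polynomial.map_add, map_add, map_add, LinearMap.add_apply, LinearMap.add_apply, hp, hq,
      mk_add']
  | monomial n a =>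
    rw [Polynomial.map_monomial, rhoP_monomial, rhoP_monomial, LinearMap.smul_apply,
      LinearMap.smul_apply, lm_mk, smul_mk']

/-- The conclusion: a vector space. -/
def FibC (F A : Type) [Field F] [Ring A] [Algebra F A] (P : TwoSidedIdeal A) (e : ℕ → A) : Prop :=
  ∃ (K V : Type) (_ : Field K) (_ : CharZero K) (_ : AddCommGroup V) (_ : Module K V)
    (_ : Nontrivial V) (φ : F →+* K) (μ : A →+* Module.End K V) (s : Finset K),
    (∀ r, μ (algebraMap F A r) = algebraMap K _ (φ r)) ∧ (∀ a ∈ P, μ a = 0) ∧
    (∀ v : V, v ≠ 0 → ∀ a, (∀ b, μ a (μ b v) = 0) → a ∈ P) ∧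
    ∀ v : V, ∃ r, ∀ p : K[X], (∏ b ∈ s, (X - C b)) ^ r ∣ p → rhoP (fun j => μ (e j)) p v = 0

theorem fib2 (htf : ∀ (r : R) (m : M), r ≠ 0 → r • m = 0 → m = 0) (lam : A →+* Module.End R M)
    (hF : ∀ r, lam (algebraMap F A r) = algebraMap R _ (algebraMap F R r)) {P : TwoSidedIdeal A}
    (h1 : ∀ a ∈ P, lam a = 0) (h2 : ∀ m : M, m ≠ 0 → ∀ a, (∀ b, lam a (lam b m) = 0) → a ∈ P)
    {e : ℕ → A} {k : ℕ} (x : Fin k → R)
    (h3 : ∀ m : M, ∃ r, ∀ n, rhoP (fun j => lam (e j)) ((∏ i, (X - C (x i))) ^ r * X ^ n) m = 0) :
    FibC F A P e := by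
  classical
  have hinj : Function.Injective (algebraMap R (FractionRing R)) :=
    IsFractionRing.injective R (FractionRing R)
  have hchar : CharZero (FractionRing R) := by
    have : Function.Injective ((algebraMap R (FractionRing R)).comp (algebraMap F R)) :=
      RingHom.injective _
    exact charZero_of_injective_ringHom this
  refine ⟨FractionRing R, LocalizedModule (nonZeroDivisors R) M, inferInstance, hchar,
    inferInstance, inferInstance, ?_, (algebraMap R (FractionRing R)).comp (algebraMap F R),
    { toFun := fun a => lm (lam a)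
      map_one' := by rw [map_one, lm_one]
      map_mul' := fun a b => by rw [map_mul, lm_mul]
      map_zero' := by rw [map_zero, lm_zero]
      map_add' := fun a b => by rw [map_add, lm_add] },
    Finset.univ.image fun i => algebraMap R (FractionRing R) (x i), ?_, ?_, ?_, ?_⟩
  · obtain ⟨m, hm⟩ := exists_ne (0 : M)
    exact ⟨LocalizedModule.mk m 1, 0, fun h => hm ((mk_zero_iff htf m 1).mp h)⟩
  · intro r
    change lm (lam (algebraMap F A r)) = _
    rw [hF, lm_alg]
    rfl
  · intro a ha
    change lm (lam a) = 0
    rw [h1 a ha, lm_zero]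
  · intro v hv a h
    induction v using LocalizedModule.induction_on with
    | _ m t =>
      have hm : m ≠ 0 := by
        rintro rfl
        exact hv (LocalizedModule.zero_mk t)
      refine h2 m hm a fun b => ?_
      have h4 := h b
      change lm (lam a) (lm (lam b) (LocalizedModule.mk m t)) = 0 at h4
      rw [lm_mk, lm_mk, mk_zero_iff htf] at h4
      exact h4
  · intro v
    induction v using LocalizedModule.induction_on with
    | _ m t =>
      obtain ⟨r, hr⟩ := h3 m
      refine ⟨k * r, fun p hp => ?_⟩
      have h5 : (∏ i, (X - C (x i))).map (algebraMap R (FractionRing R)) =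
          ∏ i, (X - C (algebraMap R (FractionRing R) (x i))) := by
        rw [Polynomial.map_prod]
        refine Finset.prod_congr rfl fun i _ => ?_
        rw [Polynomial.map_sub, Polynomial.map_X, Polynomial.map_C]
      have h6 : ((∏ i, (X - C (x i))).map (algebraMap R (FractionRing R))) ^ r ∣ p := by
        refine dvd_trans ?_ hp
        rw [pow_mul]
        apply pow_dvd_pow_of_dvd
        rw [h5]
        have h7 : ∀ i ∈ (Finset.univ : Finset (Fin k)), (X - C (algebraMap R (FractionRing R) (x i)))
            ∣ ∏ b ∈ Finset.univ.image fun i => algebraMap R (FractionRing R) (x i), (X - C b) :=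
          fun i _ => Finset.dvd_prod_of_mem (fun b => (X - C b : (FractionRing R)[X]))
            (Finset.mem_image_of_mem _ (Finset.mem_univ i))
        have h8 := Finset.prod_dvd_prod_of_dvd _ _ h7
        rw [Finset.prod_const, Finset.card_univ, Fintype.card_fin] at h8
        exact h8
      obtain ⟨q, rfl⟩ := h6
      change rhoP (fun j => lm (lam (e j))) _ _ = 0
      clear hp
      induction q using Polynomial.induction_on' with
      | add p q hp hq => rw [mul_add, map_add, LinearMap.add_apply, hp, hq, add_zero]
      | monomial n a =>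
        have h9 : (∏ i, (X - C (x i))).map (algebraMap R (FractionRing R)) ^ r *
            monomial n a = a • ((∏ i, (X - C (x i))) ^ r * X ^ n).map
              (algebraMap R (FractionRing R)) := by
          rw [Polynomial.map_mul, Polynomial.map_pow, Polynomial.map_pow, Polynomial.map_X,
            ← C_mul_X_pow_eq_monomial, smul_eq_C_mul]
          ring
        rw [h9, map_smul, LinearMap.smul_apply, rhoP_lm (fun j => lam (e j)), hr,
          LocalizedModule.zero_mk, smul_zero]

end loc

section ann
variable {F A R M : Type} [Field F] [CharZero F] [Ring A] [Algebra F A] [CommRing R]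
  [IsNoetherianRing R] [Algebra F R] [AddCommGroup M] [Module R M] [Nontrivial M]

theorem fib (lam : A →+* Module.End R M)
    (hF : ∀ r, lam (algebraMap F A r) = algebraMap R _ (algebraMap F R r)) {P : TwoSidedIdeal A}
    (h1 : ∀ a ∈ P, lam a = 0) (h2 : ∀ m : M, m ≠ 0 → ∀ a, (∀ b, lam a (lam b m) = 0) → a ∈ P)
    {e : ℕ → A} {k : ℕ} (x : Fin k → R)
    (h3 : ∀ m : M, ∃ r, ∀ n, rhoP (fun j => lam (e j)) ((∏ i, (X - C (x i))) ^ r * X ^ n) m = 0) :
    FibC F A P e := by
  classical
  set T : Set (Ideal R) := {I | ∃ N : Submodule R M, N ≠ ⊥ ∧ (∀ a, ∀ m ∈ N, lam a m ∈ N) ∧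
    I = Module.annihilator R N} with hT
  have hTne : T.Nonempty := ⟨_, ⊤, top_ne_bot, fun _ _ _ => Submodule.mem_top, rfl⟩
  obtain ⟨q, ⟨N, hN, hNs, hq⟩, hmax⟩ :=
    (set_has_maximal_iff_noetherian (R := R) (M := R)).mpr inferInstance T hTne
  have hann : ∀ r : R, r ∈ q ↔ ∀ m ∈ N, r • m = 0 := by
    intro r
    rw [hq, Module.mem_annihilator]
    constructor
    · intro h m hm
      exact congrArg Subtype.val (h ⟨m, hm⟩)
    · intro h m
      exact Subtype.ext (h m m.2)
  have key : ∀ N' : Submodule R M, N' ≤ N → N' ≠ ⊥ → (∀ a, ∀ m ∈ N', lam a m ∈ N') →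
      ∀ r : R, (∀ m ∈ N', r • m = 0) → r ∈ q := by
    intro N' hle hne hst r hr
    by_contra hrq
    refine hmax (Module.annihilator R N') ⟨N', hne, hst, rfl⟩ ?_
    refine lt_of_le_of_ne ?_ ?_
    · intro t ht
      rw [Module.mem_annihilator]
      intro m
      exact Subtype.ext ((hann t).mp ht m (hle m.2))
    · intro h
      apply hrq
      rw [h, Module.mem_annihilator]
      intro m
      exact Subtype.ext (hr m m.2)
  have htor : ∀ r : R, r ∉ q → ∀ m ∈ N, r • m = 0 → m = 0 := by
    intro r hr m hm hrm
    by_contra hm0
    apply hr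
    refine key (N ⊓ LinearMap.ker (algebraMap R (Module.End R M) r)) inf_le_left ?_ ?_ r ?_
    · intro h
      apply hm0
      have : m ∈ N ⊓ LinearMap.ker (algebraMap R (Module.End R M) r) :=
        Submodule.mem_inf.mpr
          ⟨hm, by rw [LinearMap.mem_ker, Module.algebraMap_end_apply]; exact hrm⟩
      rwa [h, Submodule.mem_bot] at this
    · rintro a m' ⟨hm', hm''⟩
      refine ⟨hNs a m' hm', ?_⟩
      rw [SetLike.mem_coe, LinearMap.mem_ker, Module.algebraMap_end_apply] at hm'' ⊢
      rw [← map_smul, hm'', map_zero]
    · rintro m' ⟨-, hm'⟩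
      rw [SetLike.mem_coe, LinearMap.mem_ker, Module.algebraMap_end_apply] at hm'
      exact hm'
  have hprime : Ideal.IsPrime (α := R) q := by
    refine Ideal.isPrime_iff.mpr ⟨?_, ?_⟩
    · intro h
      apply hN
      rw [eq_bot_iff]
      intro m hm
      have := (hann 1).mp (by rw [h]; exact Submodule.mem_top) m hm
      rwa [one_smul] at this
    · intro r t hrt
      by_contra hcon
      push Not at hcon
      apply hN
      rw [eq_bot_iff]
      intro m hm
      have h5 := (hann _).mp hrt m hm
      rw [mul_smul] at h5
      exact htor t hcon.2 m hm (htor r hcon.1 _ (N.smul_mem _ hm) h5)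
  let _ : Module (R ⧸ Module.annihilator R N) N := Module.quotientAnnihilator
  have hmk : ∀ (r : R) (m : N), (Ideal.Quotient.mk (Module.annihilator R N) r) • m = r • m :=
    fun r m => rfl
  subst hq
  have : IsDomain (R ⧸ Module.annihilator R N) := Ideal.Quotient.isDomain _
  have : Nontrivial N := (Submodule.nontrivial_iff_ne_bot).mpr hN
  set lam' : A → Module.End (R ⧸ Module.annihilator R N) N := fun a =>
    { toFun := (lam a).restrict (hNs a)
      map_add' := map_add _
      map_smul' := by
        intro r m
        obtain ⟨r, rfl⟩ := Ideal.Quotient.mk_surjective r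
        rw [hmk, RingHom.id_apply, hmk, map_smul] } with hlam'
  have hval : ∀ a (m : N), ((lam' a m : N) : M) = lam a m := fun a m => rfl
  have hrho : ∀ (e : ℕ → A) (p : R[X]) (m : N),
      ((rhoP (fun j => lam' (e j)) (p.map (Ideal.Quotient.mk (Module.annihilator R N))) m : N) : M)
        = rhoP (fun j => lam (e j)) p m := by
    intro e p m
    induction p using Polynomial.induction_on' with
    | add p q hp hq =>
      rw [Polynomial.map_add, map_add, map_add, LinearMap.add_apply, LinearMap.add_apply,
        Submodule.coe_add, hp, hq]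
    | monomial n a =>
      rw [Polynomial.map_monomial, rhoP_monomial, rhoP_monomial, LinearMap.smul_apply,
        LinearMap.smul_apply, hmk, Submodule.coe_smul, hval]
  refine fib2 (R := R ⧸ Module.annihilator R N) (M := N) ?_
    { toFun := lam'
      map_one' := by
        apply LinearMap.ext; intro m; apply Subtype.ext
        rw [hval, map_one]; rfl
      map_mul' := fun a b => by
        apply LinearMap.ext; intro m; apply Subtype.ext
        rw [hval, map_mul]; rfl
      map_zero' := by
        apply LinearMap.ext; intro m; apply Subtype.ext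
        rw [hval, map_zero]; rfl
      map_add' := fun a b => by
        apply LinearMap.ext; intro m; apply Subtype.ext
        rw [hval, map_add]; rfl } ?_ ?_ ?_
    (fun i => Ideal.Quotient.mk (Module.annihilator R N) (x i)) ?_
  · intro r m hr hrm
    obtain ⟨r, rfl⟩ := Ideal.Quotient.mk_surjective r
    rw [hmk] at hrm
    apply Subtype.ext
    refine htor r ?_ m m.2 (congrArg Subtype.val hrm)
    intro h
    exact hr (Ideal.Quotient.eq_zero_iff_mem.mpr h)
  · intro r
    apply LinearMap.ext; intro m; apply Subtype.ext
    change ((lam' _ m : N) : M) = _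
    rw [hval, hF, Module.algebraMap_end_apply, Module.algebraMap_end_apply]
    rfl
  · intro a ha
    apply LinearMap.ext; intro m; apply Subtype.ext
    change ((lam' _ m : N) : M) = _
    rw [hval, h1 a ha]
    rfl
  · intro m hm a h
    refine h2 m (fun h' => hm (Subtype.ext h')) a fun b => ?_
    exact congrArg Subtype.val (h b)
  · intro m
    obtain ⟨r, hr⟩ := h3 m
    refine ⟨r, fun n => ?_⟩
    apply Subtype.ext
    have h5 : ((∏ i, (X - C (x i))) ^ r * X ^ n).map
        (Ideal.Quotient.mk (Module.annihilator R N)) =
        (∏ i, (X - C (Ideal.Quotient.mk (Module.annihilator R N) (x i)))) ^ r * X ^ n := by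
      rw [Polynomial.map_mul, Polynomial.map_pow, Polynomial.map_pow, Polynomial.map_X,
        Polynomial.map_prod]
      congr 2
      refine Finset.prod_congr rfl fun i _ => ?_
      rw [Polynomial.map_sub, Polynomial.map_X, Polynomial.map_C]
    have h6 := hrho e ((∏ i, (X - C (x i))) ^ r * X ^ n) m
    rw [h5, hr] at h6
    exact h6

end ann

end Pool.Agent.R693.C
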