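import Pool.Agent.R693.R.Inj

/-!
Complete primeness can be tested on the positive part.
-/

set_option autoImplicit false
set_option linter.unusedSectionVars false

namespace Pool.Agent.R693.W

section trans
variable {F : Type*} [Field F] [CharZero F] {A : Type*} [Ring A] [Algebra F A] {e : ℤ → A}

lemma Inf_nv {S : Submodule F A} {k : ℕ} {g : G ℤ → A} (hg : g ∈ Inf S k) (v : ℤ) (j : ℕ) :
    ∃ c : ℤ, ∀ n : G ℤ, (∀ i < k, c ≤ n i) → n j ≠ v → g (nv v j n) ∈ S := by
  obtain ⟨c, hc⟩ := hg
  refine ⟨c + |v| + 1, fun n hn hj => hc _ fun i hi => ?_⟩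
  have h1 := hn i hi
  have h2 := neg_abs_le v
  have h3 := abs_nonneg v
  by_cases hij : i = j
  · subst hij
    have h4 := nv_spec hj
    have h5 : ∀ x : ℤ, Lab.c x = x := fun x => rfl
    rw [h5, h5, h5] at h4
    omega
  · rw [nv_ne hij]
    omega

/-- Reduction modulo an ideal, with factors on both sides. -/
lemma red_two (he : IsW F e) {J : TwoSidedIdeal A} {k N : ℕ}
    (hV : Dl F ℤ (k + 1) ^ N ∈ aI e (k + 1) (subsp F J)) (w : List ℤ) : ∀ w0 : List ℤ,
    (fun n => wd e w0 * eta0 F e k N n * wd e w) ∈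
      Inf (Subalgebra.toSubmodule (Apos F e) ⊔ subsp F J) k := by
  classical
  set S := Subalgebra.toSubmodule (Apos F e) ⊔ subsp F J with hS
  induction w with
  | nil =>
    intro w0
    have := red he hV w0
    simpa using this
  | cons v w ih =>
    intro w0
    obtain ⟨q, hq⟩ := ad_eta0 he k N v
    set g : G ℤ → A := fun n => wd e w0 * eta0 F e k N n * wd e w with hg
    have h1 : (fun n => wd e (w0 ++ [v]) * eta0 F e k N n * wd e w) ∈ Inf S k := ih (w0 ++ [v])
    have h2 : act A q g ∈ Inf S k := Inf_act q (ih w0)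
    have h3 : ∀ j, ∃ c : ℤ, ∀ n : G ℤ, (∀ i < k, c ≤ n i) → n j ≠ v → g (nv v j n) ∈ S :=
      fun j => Inf_nv (ih w0) v j
    choose cj hcj using h3
    obtain ⟨c1, hc1⟩ := h1
    obtain ⟨c2, hc2⟩ := h2
    refine ⟨max (max c1 c2) (∑ j ∈ Finset.range k, |cj j|), fun n hn => ?_⟩
    have h4 : wd e w0 * eta0 F e k N n * wd e (v :: w) =
        wd e (w0 ++ [v]) * eta0 F e k N n * wd e w -
          (act A q g n + ∑ j ∈ Finset.range k, ((Lab.c (n j) - Lab.c v : ℤ) : F) •
            (if n j = v then 0 else g (nv v j n))) := by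
      have h5 : wd e (w0 ++ [v]) = wd e w0 * e v := by simp [wd]
      have h6 : act A q g n = wd e w0 * act A q (eta0 F e k N) n * wd e w := by
        rw [hg, act_right q (wd e w) (fun n => wd e w0 * eta0 F e k N n), act_left]
      have h7 : wd e w0 * eta0 F e k N n * wd e (v :: w) =
          wd e w0 * e v * eta0 F e k N n * wd e w -
            wd e w0 * ad e v (eta0 F e k N n) * wd e w := by
        rw [wd_cons]; unfold ad; noncomm_ring
      rw [h7, hq, h5, h6]
      congr 1
      rw [mul_add, add_mul]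
      congr 1
      rw [Finset.mul_sum, Finset.sum_mul]
      refine Finset.sum_congr rfl fun j _ => ?_
      rw [mul_smul_comm, smul_mul_assoc]
      congr 1
      split_ifs
      · rw [mul_zero, zero_mul]
      · rfl
    change wd e w0 * eta0 F e k N n * wd e (v :: w) ∈ S
    rw [h4]
    refine S.sub_mem (hc1 n fun i hi => ?_) (S.add_mem (hc2 n fun i hi => ?_)
      (S.sum_mem fun j hj => S.smul_mem _ ?_))
    · exact ((le_max_left _ _).trans (le_max_left _ _)).trans (hn i hi)
    · exact ((le_max_right _ _).trans (le_max_left _ _)).trans (hn i hi)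
    · split_ifs with h
      · exact S.zero_mem
      · apply hcj j n _ h
        intro i hi
        have h8 : |cj j| ≤ ∑ j ∈ Finset.range k, |cj j| :=
          Finset.single_le_sum (f := fun j => |cj j|) (fun _ _ => abs_nonneg _) hj
        have h9 := le_abs_self (cj j)
        exact (h9.trans h8).trans ((le_max_right _ _).trans (hn i hi))

lemma red_elt (he : IsW F e) (hgen : ∀ x : A, ∃ k, x ∈ Fl F e k) {J : TwoSidedIdeal A} {k N : ℕ}
    (hV : Dl F ℤ (k + 1) ^ N ∈ aI e (k + 1) (subsp F J)) (a : A) :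
    (fun n => a * eta0 F e k N n) ∈ Inf (Subalgebra.toSubmodule (Apos F e) ⊔ subsp F J) k ∧
    (fun n => eta0 F e k N n * a) ∈ Inf (Subalgebra.toSubmodule (Apos F e) ⊔ subsp F J) k := by
  obtain ⟨r, hr⟩ := hgen a
  unfold Fl at hr
  induction hr using Submodule.span_induction with
  | mem y hy =>
    obtain ⟨w, -, rfl⟩ := hy
    refine ⟨red he hV w, ?_⟩
    have := red_two he hV w []
    simpa using this
  | zero =>
    have h1 : (fun n => (0 : A) * eta0 F e k N n) = 0 := by
      funext n; rw [zero_mul]; rfl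
    have h2 : (fun n => eta0 F e k N n * (0 : A)) = 0 := by
      funext n; rw [mul_zero]; rfl
    rw [h1, h2]
    exact ⟨Submodule.zero_mem _, Submodule.zero_mem _⟩
  | add y z _ _ hy hz =>
    have h1 : (fun n => (y + z) * eta0 F e k N n) =
        (fun n => y * eta0 F e k N n) + fun n => z * eta0 F e k N n := by
      funext n; rw [add_mul]; rfl
    have h2 : (fun n => eta0 F e k N n * (y + z)) =
        (fun n => eta0 F e k N n * y) + fun n => eta0 F e k N n * z := by
      funext n; rw [mul_add]; rfl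
    rw [h1, h2]
    exact ⟨Submodule.add_mem _ hy.1 hz.1, Submodule.add_mem _ hy.2 hz.2⟩
  | smul a y _ hy =>
    have h1 : (fun n => (a • y) * eta0 F e k N n) = a • fun n => y * eta0 F e k N n := by
      funext n; rw [smul_mul_assoc]; rfl
    have h2 : (fun n => eta0 F e k N n * (a • y)) = a • fun n => eta0 F e k N n * y := by
      funext n; rw [mul_smul_comm]; rfl
    rw [h1, h2]
    exact ⟨Submodule.smul_mem _ a hy.1, Submodule.smul_mem _ a hy.2⟩

/-- Complete primeness from the positive part. -/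
theorem cp_trans (he : IsW F e) (hgen : ∀ x : A, ∃ k, x ∈ Fl F e k) {P : TwoSidedIdeal A}
    (hP : IsPrimeT P) (h0 : P ≠ ⊥)
    (hcp : ∀ x ∈ Apos F e, ∀ y ∈ Apos F e, x * y ∈ P → x ∈ P ∨ y ∈ P) {a b : A}
    (hab : a * b ∈ P) : a ∈ P ∨ b ∈ P := by
  obtain ⟨k, N, hV, hη⟩ := exists_min (F := F) he hgen h0 hP.1
  by_contra hcon
  push Not at hcon
  obtain ⟨ha, hb⟩ := hcon
  obtain ⟨c1, hc1⟩ := (red_elt he hgen hV b).1
  obtain ⟨c2, hc2⟩ := (red_elt he hgen hV a).2
  obtain ⟨c3, hc3⟩ := (red_elt he hgen hV a).1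
  have h1 : ∃ n : G ℤ, (∀ i < k, c1 ≤ n i) ∧ b * eta0 F e k N n ∉ P := by
    by_contra h
    push Not at h
    exact hb (key_lemma he hgen hP hV hη h)
  obtain ⟨n, hn, hbn⟩ := h1
  obtain ⟨b', hb', p, hp, hbp⟩ := Submodule.mem_sup.mp (hc1 n hn)
  beta_reduce at hbp
  rw [mem_subsp] at hp
  have hb'P : b' ∉ P := by
    intro h
    apply hbn
    rw [← hbp]
    exact P.add_mem h hp
  have hab' : a * b' ∈ P := by
    have : a * b' = a * b * eta0 F e k N n - a * p := by
      rw [mul_assoc, ← hbp]; noncomm_ring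
    rw [this]
    exact P.sub_mem (P.mul_mem_right _ _ hab) (P.mul_mem_left _ _ hp)
  have h2 : ∀ m : G ℤ, (∀ i < k, c2 ≤ m i) → eta0 F e k N m * a ∈ P := by
    intro m hm
    obtain ⟨x, hx, q, hq, hxq⟩ := Submodule.mem_sup.mp (hc2 m hm)
    beta_reduce at hxq
    rw [mem_subsp] at hq
    have h3 : x * b' ∈ P := by
      have : x * b' = eta0 F e k N m * (a * b') - q * b' := by
        rw [← mul_assoc, ← hxq]; noncomm_ring
      rw [this]
      exact P.sub_mem (P.mul_mem_left _ _ hab') (P.mul_mem_right _ _ hq)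
    rw [← hxq]
    exact P.add_mem ((hcp x hx b' hb' h3).resolve_right hb'P) hq
  have h3 : ∃ m : G ℤ, (∀ i < k, max c2 0 ≤ m i) ∧ eta0 F e k N m ∉ P := by
    by_contra h
    push Not at h
    have h4 : (1 : A) ∈ P := key_lemma he hgen hP hV hη (c := max c2 0) fun n hn => by
      rw [one_mul]; exact h n hn
    apply hP.1
    rwa [← TwoSidedIdeal.one_mem_iff]
  obtain ⟨m, hm, hmP⟩ := h3
  apply ha
  refine key_lemma he hgen hP hV hη (c := c3) fun n hn => ?_
  obtain ⟨x, hx, q, hq, hxq⟩ := Submodule.mem_sup.mp (hc3 n hn)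
  beta_reduce at hxq
  rw [mem_subsp] at hq
  have h4 : eta0 F e k N m * x ∈ P := by
    have : eta0 F e k N m * x = eta0 F e k N m * a * eta0 F e k N n - eta0 F e k N m * q := by
      rw [mul_assoc, ← hxq]; noncomm_ring
    rw [this]
    exact P.sub_mem (P.mul_mem_right _ _ (h2 m fun i hi => (le_max_left _ _).trans (hm i hi)))
      (P.mul_mem_left _ _ hq)
  rw [← hxq]
  refine P.add_mem ((hcp _ (eta0_Pos k N m fun i hi => (le_max_right _ _).trans (hm i hi)) x hx
    h4).resolve_left hmP) hq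

end trans

end Pool.Agent.R693.W
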