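import Pool.Agent.R693.W.VirAcc
import Pool.Agent.R693.R.PBW

/-!
Quotients of the enveloping algebra of the Virasoro algebra by `z - a` are domains.
-/

set_option autoImplicit false
set_option linter.unusedSectionVars false

namespace Pool.Agent.R693.VirDom

open Pool.Agent.R693.W (wd wd_nil wd_cons)
open Pool.Agent.R693.Vir

section dom
variable {F : Type} [Field F] {A : Type} [Ring A] [Algebra F A] {e : ℤ → A} {c : F}

/-- Polynomials all of whose monomials have degree less than `n`. -/
def Lo (F : Type) [Field F] (n : ℕ) : Submodule F (MvPolynomial ℤ F) where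
  carrier := {p | ∀ k, n ≤ k → MvPolynomial.homogeneousComponent k p = 0}
  zero_mem' := fun k _ => map_zero _
  add_mem' := fun {p q} hp hq k hk => by rw [map_add, hp k hk, hq k hk, add_zero]
  smul_mem' := fun r p hp k hk => by rw [map_smul, hp k hk, smul_zero]

lemma Lo_mono {n m : ℕ} (h : n ≤ m) : Lo F n ≤ Lo F m := fun _ hp k hk => hp k (h.trans hk)

/-- The monomial of a word. -/
noncomputable def mon (F : Type) [Field F] (w : List ℤ) : MvPolynomial ℤ F :=
  (w.map MvPolynomial.X).prod

lemma mon_hom (w : List ℤ) : (mon F w).IsHomogeneous w.length := by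
  unfold mon
  induction w with
  | nil => simpa using MvPolynomial.isHomogeneous_one ℤ F
  | cons v w ih =>
    rw [List.map_cons, List.prod_cons, List.length_cons, add_comm]
    exact (MvPolynomial.isHomogeneous_X F v).mul ih

lemma mon_comp (w : List ℤ) (k : ℕ) : MvPolynomial.homogeneousComponent k (mon F w) =
    if k = w.length then mon F w else 0 := by
  by_cases h : k = w.length
  · rw [if_pos h, h]
    exact MvPolynomial.homogeneousComponent_of_mem (mon_hom w) |>.trans (if_pos rfl)
  · rw [if_neg h]
    exact (MvPolynomial.homogeneousComponent_of_mem (mon_hom w)).trans (if_neg h)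

lemma mon_Lo {w : List ℤ} {n : ℕ} (h : w.length < n) : mon F w ∈ Lo F n := by
  intro k hk
  rw [mon_comp, if_neg (by omega)]

lemma mon_perm {w w' : List ℤ} (h : w.Perm w') : mon F w = mon F w' :=
  (h.map _).prod_eq

lemma mon_append (w w' : List ℤ) : mon F (w ++ w') = mon F w * mon F w' := by
  unfold mon
  rw [List.map_append, List.prod_append]

lemma mon_eq (w : List ℤ) : mon F w = MvPolynomial.monomial (Multiset.toFinsupp (w : Multiset ℤ)) 1 := by
  unfold mon
  induction w with
  | nil => simp
  | cons v w ih =>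
    rw [List.map_cons, List.prod_cons, ih, ← Multiset.cons_coe, ← Multiset.singleton_add,
      map_add, Multiset.toFinsupp_singleton, MvPolynomial.X, MvPolynomial.monomial_mul, one_mul]

variable (he : IsVir c e) (S : A →ₗ[F] MvPolynomial ℤ F)
  (hS : ∀ w, Can w → S (wd e w) = mon F w)

include he hS in
lemma S_Fl (n : ℕ) : ∀ x ∈ Fl F e n, S x ∈ Lo F n := by
  induction n with
  | zero =>
    intro x hx
    unfold Fl at hx
    have : {x : A | ∃ w : List ℤ, w.length < 0 ∧ x = wd e w} = ∅ := by
      ext y; simp
    rw [this, Submodule.span_empty, Submodule.mem_bot] at hx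
    rw [hx, map_zero]
    exact Submodule.zero_mem _
  | succ n ih =>
    intro x hx
    obtain ⟨y, hy, z, hz, rfl⟩ := Submodule.mem_sup.mp (Fl_succ he n hx)
    rw [map_add]
    refine Submodule.add_mem _ ?_ (Lo_mono (Nat.le_succ n) (ih z hz))
    clear hx
    induction hy using Submodule.span_induction with
    | mem y hy =>
      obtain ⟨w, ⟨hw, hc⟩, rfl⟩ := hy
      rw [hS w hc]
      exact mon_Lo (by omega)
    | zero => rw [map_zero]; exact Submodule.zero_mem _
    | add y z _ _ hy hz => rw [map_add]; exact Submodule.add_mem _ hy hz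
    | smul a y _ hy => rw [map_smul]; exact Submodule.smul_mem _ _ hy

include he hS in
lemma S_wd (w : List ℤ) : S (wd e w) - mon F w ∈ Lo F w.length := by
  set w' := (w : Multiset ℤ).sort (· ≤ ·) with hw'
  have h1 : (w' : Multiset ℤ) = w := Multiset.sort_eq _ _
  have h2 : w'.Perm w := Multiset.coe_eq_coe.mp h1
  have h3 : Can w' := by
    unfold Can
    rw [h1]
  have h4 := S_Fl he S hS _ _ (perm_mem he h2)
  rw [map_sub, hS w' h3, mon_perm h2, h2.length_eq] at h4
  have h5 := Submodule.neg_mem _ h4
  rwa [neg_sub] at h5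

/-- The symbol. -/
noncomputable def sy (n : ℕ) : A →ₗ[F] MvPolynomial ℤ F :=
  (MvPolynomial.homogeneousComponent n) ∘ₗ S

include he hS in
lemma sy_wd (w : List ℤ) (n : ℕ) (h : w.length ≤ n) : sy S n (wd e w) =
    if n = w.length then mon F w else 0 := by
  have h1 := S_wd he S hS w n h
  rw [map_sub, sub_eq_zero] at h1
  change MvPolynomial.homogeneousComponent n (S (wd e w)) = _
  rw [h1, mon_comp]

include he hS in
lemma sy_mul {n m : ℕ} {x y : A} (hx : x ∈ Fl F e (n + 1)) (hy : y ∈ Fl F e (m + 1)) :
    sy S (n + m) (x * y) = sy S n x * sy S m y := by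
  unfold Fl at hx hy
  induction hx using Submodule.span_induction with
  | mem x hx =>
    obtain ⟨u, hu, rfl⟩ := hx
    induction hy using Submodule.span_induction with
    | mem y hy =>
      obtain ⟨v, hv, rfl⟩ := hy
      have h1 : wd e u * wd e v = wd e (u ++ v) := by simp [wd]
      rw [h1, sy_wd he S hS _ _ (by rw [List.length_append]; omega),
        sy_wd he S hS _ _ (by omega), sy_wd he S hS _ _ (by omega), List.length_append]
      by_cases h2 : n = u.length
      · by_cases h3 : m = v.length
        · rw [if_pos h2, if_pos h3, if_pos (by omega), mon_append]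
        · rw [if_pos h2, if_neg h3, if_neg (by omega), mul_zero]
      · rw [if_neg h2, if_neg (by omega), zero_mul]
    | zero => rw [mul_zero, map_zero, map_zero, mul_zero]
    | add y z _ _ hy hz => rw [mul_add, map_add, map_add, hy, hz, mul_add]
    | smul a y _ hy => rw [mul_smul_comm, map_smul, map_smul, hy, mul_smul_comm]
  | zero => rw [zero_mul, map_zero, map_zero, zero_mul]
  | add y z _ _ hy' hz => rw [add_mul, map_add, map_add, hy', hz, add_mul]
  | smul a y _ hy' => rw [smul_mul_assoc, map_smul, map_smul, hy', smul_mul_assoc]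

include he hS in
lemma sy_ne {n : ℕ} {x : A} (hx : x ∈ Fl F e (n + 1)) (hx' : x ∉ Fl F e n) : sy S n x ≠ 0 := by
  intro h0
  obtain ⟨y, hy, z, hz, rfl⟩ := Submodule.mem_sup.mp (Fl_succ he n hx)
  have h1 : sy S n z = 0 := S_Fl he S hS n z hz n le_rfl
  rw [map_add, h1, add_zero] at h0
  apply hx'
  refine Submodule.add_mem _ ?_ hz
  have h2 : y = 0 := by
    rw [Finsupp.mem_span_image_iff_linearCombination] at hy
    obtain ⟨l, hl, rfl⟩ := hy
    rw [Finsupp.mem_supported] at hl
    have h3 : sy S n (Finsupp.linearCombination F (wd e) l) =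
        Finsupp.linearCombination F (fun w : List ℤ => (MvPolynomial.monomial
          (Multiset.toFinsupp (w : Multiset ℤ)) (1 : F) : MvPolynomial ℤ F)) l := by
      rw [Finsupp.linearCombination_apply, Finsupp.linearCombination_apply, Finsupp.sum,
        Finsupp.sum, map_sum]
      refine Finset.sum_congr rfl fun w hw => ?_
      obtain ⟨hw1, hw2⟩ := hl hw
      rw [map_smul, sy_wd he S hS w n hw1.le, if_pos hw1.symm, mon_eq]
    rw [h3] at h0
    have h4 : l = 0 := by
      ext w
      by_contra hlw
      have hw : w ∈ l.support := Finsupp.mem_support_iff.mpr hlw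
      have h5 := congrArg (MvPolynomial.coeff (Multiset.toFinsupp (w : Multiset ℤ))) h0
      rw [Finsupp.linearCombination_apply, Finsupp.sum, MvPolynomial.coeff_sum,
        Finset.sum_eq_single w] at h5
      · rw [MvPolynomial.coeff_smul, MvPolynomial.coeff_monomial, if_pos rfl, MvPolynomial.coeff_zero,
          smul_eq_mul, mul_one] at h5
        exact hlw h5
      · intro w' hw' hne
        rw [MvPolynomial.coeff_smul, MvPolynomial.coeff_monomial, if_neg, smul_zero]
        intro h6
        apply hne
        exact Can.inj (hl hw').2 (hl hw).2 (Multiset.toFinsupp.injective h6)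
      · intro h; exact absurd hw h
    rw [h4, map_zero]
  rw [h2]
  exact Submodule.zero_mem _

include he hS in
lemma dom (hgen : ∀ x : A, ∃ k, x ∈ Fl F e k) {x y : A} (hxy : x * y = 0) : x = 0 ∨ y = 0 := by
  classical
  have key : ∀ x : A, x ≠ 0 → ∃ n, x ∈ Fl F e (n + 1) ∧ x ∉ Fl F e n := by
    intro x hx
    have hspec := Nat.find_spec (hgen x)
    rcases hfind : Nat.find (hgen x) with _ | n
    · rw [hfind] at hspec
      unfold Fl at hspec
      have : {x : A | ∃ w : List ℤ, w.length < 0 ∧ x = wd e w} = ∅ := by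
        ext y; simp
      rw [this, Submodule.span_empty, Submodule.mem_bot] at hspec
      exact absurd hspec hx
    · refine ⟨n, by rwa [hfind] at hspec, Nat.find_min (hgen x) (by omega)⟩
  by_contra hcon
  push Not at hcon
  obtain ⟨n, hn, hn'⟩ := key x hcon.1
  obtain ⟨m, hm, hm'⟩ := key y hcon.2
  have h1 := sy_mul he S hS hn hm
  rw [hxy, map_zero] at h1
  rcases mul_eq_zero.mp h1.symm with h | h
  · exact sy_ne he S hS hn hn' h
  · exact sy_ne he S hS hm hm' h

end dom

section vir
variable {F : Type} [Field F] {A : Type} [Ring A] [Algebra F A]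

/-- Elements of the ideal generated by a central element. -/
lemma mem_span_central {z : A} (hz : ∀ x, z * x = x * z) {x : A}
    (hx : x ∈ TwoSidedIdeal.span {z}) : ∃ y, x = z * y := by
  let J : TwoSidedIdeal A := TwoSidedIdeal.mk' {x | ∃ y, x = z * y}
    ⟨0, by rw [mul_zero]⟩
    (by rintro _ _ ⟨y, rfl⟩ ⟨y', rfl⟩; exact ⟨y + y', by rw [mul_add]⟩)
    (by rintro _ ⟨y, rfl⟩; exact ⟨-y, by rw [mul_neg]⟩)
    (by rintro a _ ⟨y, rfl⟩; exact ⟨a * y, by rw [← mul_assoc, ← hz a, mul_assoc]⟩)
    (by rintro _ a ⟨y, rfl⟩; exact ⟨y * a, by rw [mul_assoc]⟩)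
  have h1 : TwoSidedIdeal.span {z} ≤ J := by
    rw [TwoSidedIdeal.span_le]
    intro w hw
    rw [Set.mem_singleton_iff] at hw
    rw [hw]
    change z ∈ TwoSidedIdeal.mk' _ _ _ _ _ _
    rw [TwoSidedIdeal.mem_mk']
    exact ⟨1, by rw [mul_one]⟩
  have h2 : x ∈ TwoSidedIdeal.mk' _ _ _ _ _ _ := h1 hx
  rw [TwoSidedIdeal.mem_mk'] at h2
  exact h2

/-- The quotient by `z - a` is a domain. -/
theorem vir_dom {e : ℤ → A} {z : A} (he : IsVirZ F e z)
    (hgen : Algebra.adjoin F (insert z (Set.range e)) = ⊤)
    (β : Module.Basis {l : List (WithBot ℤ) // l.Pairwise (· ≤ ·)} F A)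
    (hβ : ∀ l, β l = (l.1.map (fun i : WithBot ℤ => i.recBotCoe z e)).prod) {a : F}
    {x y : A} (hxy : x * y ∈ TwoSidedIdeal.span {z - algebraMap F A a}) :
    x ∈ TwoSidedIdeal.span {z - algebraMap F A a} ∨
      y ∈ TwoSidedIdeal.span {z - algebraMap F A a} := by
  set J := TwoSidedIdeal.span {z - algebraMap F A a} with hJ
  have hcen : ∀ x, (z - algebraMap F A a) * x = x * (z - algebraMap F A a) := by
    intro x
    rw [sub_mul, mul_sub, he.1 x, Algebra.commutes]
  -- the linear map on the algebra
  set f : WithBot ℤ → MvPolynomial ℤ F := fun i => i.recBotCoe (MvPolynomial.C a) MvPolynomial.X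
    with hf
  set S0 : A →ₗ[F] MvPolynomial ℤ F := β.constr F (fun l => (l.1.map f).prod) with hS0
  have hS0β : ∀ l, S0 (β l) = (l.1.map f).prod := fun l => β.constr_basis F _ l
  have hzβ : ∀ l, S0 ((z - algebraMap F A a) * β l) = 0 := by
    intro l
    have hl : (⊥ :: l.1).Pairwise (· ≤ ·) := List.pairwise_cons.mpr ⟨fun _ _ => bot_le, l.2⟩
    have h1 : z * β l = β ⟨⊥ :: l.1, hl⟩ := by
      rw [hβ, hβ, List.map_cons, List.prod_cons]
      rfl
    rw [sub_mul, map_sub, h1, hS0β, ← Algebra.smul_def, map_smul, hS0β, List.map_cons,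
      List.prod_cons, MvPolynomial.smul_eq_C_mul]
    exact sub_self _
  have hkill : ∀ x ∈ J, S0 x = 0 := by
    intro x hx
    obtain ⟨y, rfl⟩ := mem_span_central hcen hx
    have h1 : S0 ∘ₗ LinearMap.mulLeft F (z - algebraMap F A a) = 0 := by
      apply β.ext
      intro l
      exact hzβ l
    exact LinearMap.congr_fun h1 y
  -- descend
  have hz : quo (F := F) J z = algebraMap F (Quo J) a := by
    have : quo (F := F) J (z - algebraMap F A a) = 0 :=
      (quo_eq_zero J).mpr (TwoSidedIdeal.subset_span rfl)
    rw [map_sub, sub_eq_zero, AlgHom.commutes] at this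
    exact this
  have hV : IsVir (C := F) (a / 12) (fun n => quo (F := F) J (e n)) := by
    intro m n
    beta_reduce
    rw [← map_mul, ← map_mul, ← map_sub, he.2 m n, map_add, map_smul]
    congr 1
    split_ifs
    · rw [map_smul, hz, Algebra.smul_def, ← map_mul]
      congr 1
      ring
    · exact map_zero _
  have hg : Algebra.adjoin F (Set.range fun n => quo (F := F) J (e n)) = ⊤ := by
    rw [eq_top_iff]
    intro y _
    obtain ⟨x, rfl⟩ := quo_surj (F := F) J y
    have hx : x ∈ Algebra.adjoin F (insert z (Set.range e)) := by rw [hgen]; trivial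
    induction hx using Algebra.adjoin_induction with
    | mem x hx =>
      rcases hx with rfl | ⟨n, rfl⟩
      · rw [hz]; exact Subalgebra.algebraMap_mem _ _
      · exact Algebra.subset_adjoin ⟨n, rfl⟩
    | algebraMap r => rw [AlgHom.commutes]; exact Subalgebra.algebraMap_mem _ _
    | add x y _ _ hx hy => rw [map_add]; exact Subalgebra.add_mem _ (hx trivial) (hy trivial)
    | mul x y _ _ hx hy => rw [map_mul]; exact Subalgebra.mul_mem _ (hx trivial) (hy trivial)
  obtain ⟨S, hS⟩ : ∃ S : Quo J →ₗ[F] MvPolynomial ℤ F, ∀ x, S (quo (F := F) J x) = S0 x := by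
    have hsurj := quo_surj (F := F) J
    have hwell : ∀ x x', quo (F := F) J x = quo (F := F) J x' → S0 x = S0 x' := by
      intro x x' h
      rw [← sub_eq_zero, ← map_sub] at h ⊢
      exact hkill _ ((quo_eq_zero J).mp h)
    refine ⟨{ toFun := fun q => S0 (hsurj q).choose
              map_add' := ?_
              map_smul' := ?_ }, fun x => ?_⟩
    · intro q q'
      rw [← map_add]
      apply hwell
      rw [map_add, (hsurj q).choose_spec, (hsurj q').choose_spec, (hsurj (q + q')).choose_spec]
    · intro r q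
      rw [RingHom.id_apply, ← map_smul]
      apply hwell
      rw [map_smul, (hsurj q).choose_spec, (hsurj (r • q)).choose_spec]
    · apply hwell
      exact (hsurj (quo (F := F) J x)).choose_spec
  have hScan : ∀ w, Can w → S (wd (fun n => quo (F := F) J (e n)) w) = mon F w := by
    intro w hw
    have hsort : w.Pairwise (· ≤ ·) := by
      unfold Can at hw
      rw [← hw]
      exact Multiset.pairwise_sort _ _
    have hsort' : (w.map (fun n : ℤ => (n : WithBot ℤ))).Pairwise (· ≤ ·) := by
      rw [List.pairwise_map]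
      exact hsort.imp fun h => WithBot.coe_le_coe.mpr h
    have h1 : wd (fun n => quo (F := F) J (e n)) w =
        quo (F := F) J (β ⟨w.map (fun n : ℤ => (n : WithBot ℤ)), hsort'⟩) := by
      rw [hβ, map_list_prod, List.map_map, List.map_map]
      rfl
    rw [h1, hS, hS0β, List.map_map]
    rfl
  have hsp : ∀ q : Quo J, ∃ k, q ∈ Fl F (fun n => quo (F := F) J (e n)) k := by
    intro q
    obtain ⟨k, hk⟩ := W.span_of_adjoin hg q
    exact ⟨k, hk⟩
  have h1 := dom hV S hScan hsp (x := quo (F := F) J x) (y := quo (F := F) J y) (by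
    rw [← map_mul, quo_eq_zero]
    exact hxy)
  rwa [quo_eq_zero, quo_eq_zero] at h1

end vir

end Pool.Agent.R693.VirDom
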