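import Pool.Agent.R693.C.Rep
import Pool.Agent.R693.C.Trans
import Pool.Agent.R693.C.VirDom
import Pool.Agent.R693.E.Main
import Pool.Agent.R693.R.Main

/-!
Complete primeness of prime ideals, in abstract form.
-/

set_option autoImplicit false
set_option linter.unusedSectionVars false

namespace Pool.Agent.R693.C

open Pool.Agent.R693.W (IsW Lab Fl wd wd_nil wd_cons IsPrimeT Apos isPrimeT_of_elt cp_trans
  exists_min restrict_prime span_of_adjoin e_mem_Apos img mem_img map_mem_img)
open Pool.Agent.R693.O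
open Pool.Agent.R693.Vir (Quo quo quo_surj quo_eq_zero IsVirZ exists_poly exists_root_mem eq_span)

section main
variable {F : Type} [Field F] [CharZero F] {A : Type} [Ring A] [Algebra F A]

/-- The case of `W_{≥ -1}`. -/
theorem cp_one {e : ℕ → A} (he : IsW F e) (hgen : ∀ x : A, ∃ k, x ∈ Fl F e k)
    (hdom : ∀ x y : A, x * y = 0 → x = 0 ∨ y = 0) {P : TwoSidedIdeal A} (hP : IsPrimeT P) {a b : A}
    (hab : a * b ∈ P) : a ∈ P ∨ b ∈ P := by
  by_cases h0 : P = ⊥
  · rw [h0, TwoSidedIdeal.mem_bot] at hab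
    rw [h0, TwoSidedIdeal.mem_bot, TwoSidedIdeal.mem_bot]
    exact hdom _ _ hab
  · exact cp_pos chain_main he hgen hP h0 hab

/-- The case of `W`. -/
theorem cp_wit {e : ℤ → A} (he : IsW F e) (hgen : ∀ x : A, ∃ k, x ∈ Fl F e k)
    (hdom : ∀ x y : A, x * y = 0 → x = 0 ∨ y = 0) {P : TwoSidedIdeal A} (hP : IsPrimeT P) {a b : A}
    (hab : a * b ∈ P) : a ∈ P ∨ b ∈ P := by
  by_cases h0 : P = ⊥
  · rw [h0, TwoSidedIdeal.mem_bot] at hab
    rw [h0, TwoSidedIdeal.mem_bot, TwoSidedIdeal.mem_bot]
    exact hdom _ _ hab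
  refine cp_trans he hgen hP h0 ?_ hab
  obtain ⟨k, N, hV, hη⟩ := exists_min (F := F) he hgen h0 hP.1
  set ep : ℕ → Apos F e := fun n => ⟨e n, e_mem_Apos (by omega)⟩ with hep
  have hep' : ∀ n : ℕ, ((ep n : Apos F e) : A) = e n := fun n => rfl
  have hW : IsW F ep := by
    intro m n j hmn
    have h2 : (Lab.one : ℕ) = 1 := rfl
    rw [h2] at hmn
    apply Subtype.ext
    exact he m n j (by
      have h2 : (Lab.one : ℤ) = 1 := rfl
      rw [h2]
      exact_mod_cast hmn)
  have hadj : Algebra.adjoin F (Set.range ep) = ⊤ := by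
    rw [eq_top_iff]
    rintro ⟨x, hx⟩ -
    have h1 : (Algebra.adjoin F (Set.range ep)).map (Apos F e).val = Apos F e := by
      rw [AlgHom.map_adjoin, ← Set.range_comp]
      rfl
    rw [← h1] at hx
    obtain ⟨y, hy, hyx⟩ := hx
    have h2 : y = ⟨x, by rw [← hyx]; exact y.2⟩ := Subtype.ext hyx
    rw [← h2]
    exact hy
  have hwd : ∀ w : List ℕ, ((wd ep w : Apos F e) : A) = wd (fun n : ℕ => e n) w := by
    intro w
    induction w with
    | nil => rfl
    | cons v w ih =>
      rw [wd_cons, wd_cons, MulMemClass.coe_mul, ih]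
  have hQ : IsPrimeT (TwoSidedIdeal.comap (Apos F e).val P) := by
    apply isPrimeT_of_elt
    · rw [TwoSidedIdeal.mem_comap, map_one]
      intro h1
      apply hP.1
      rwa [← TwoSidedIdeal.one_mem_iff]
    · intro a b h
      rw [TwoSidedIdeal.mem_comap, TwoSidedIdeal.mem_comap]
      apply restrict_prime he hgen hP hV (hη N)
      intro w
      have := h (wd ep w)
      rw [TwoSidedIdeal.mem_comap, map_mul, map_mul] at this
      rw [← hwd]
      exact this
  intro x hx y hy hxy
  have h1 := cp_one (F := F) hW (span_of_adjoin hadj) (fun u v h => by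
    have h2 : (u : A) * (v : A) = 0 := congrArg Subtype.val h
    rcases hdom _ _ h2 with h | h
    · left; exact Subtype.ext h
    · right; exact Subtype.ext h) hQ (a := ⟨x, hx⟩) (b := ⟨y, hy⟩) (by
      rw [TwoSidedIdeal.mem_comap, map_mul]
      exact hxy)
  rw [TwoSidedIdeal.mem_comap, TwoSidedIdeal.mem_comap] at h1
  exact h1

/-- Image of a prime ideal under a surjection. -/
lemma img_prime {B : Type} [Ring B] {φ : A →+* B} (hφ : Function.Surjective φ)
    {P : TwoSidedIdeal A} (hker : ∀ x, φ x = 0 → x ∈ P) (hP : IsPrimeT P) :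
    IsPrimeT (img φ hφ P) := by
  apply isPrimeT_of_elt
  · intro h
    rw [← map_one φ, map_mem_img hker, TwoSidedIdeal.one_mem_iff] at h
    exact hP.1 h
  · intro a b h
    obtain ⟨a, rfl⟩ := hφ a
    obtain ⟨b, rfl⟩ := hφ b
    rw [map_mem_img hker, map_mem_img hker]
    apply hP.elt
    intro x
    have := h (φ x)
    rwa [← map_mul, ← map_mul, map_mem_img hker] at this

/-- The case of the Virasoro algebra. -/
theorem cp_vir [IsAlgClosed F] {e : ℤ → A} {z : A} (he : IsVirZ F e z)
    (hgen : Algebra.adjoin F (insert z (Set.range e)) = ⊤)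
    (β : Module.Basis {l : List (WithBot ℤ) // l.Pairwise (· ≤ ·)} F A)
    (hβ : ∀ l, β l = (l.1.map (fun i : WithBot ℤ => i.recBotCoe z e)).prod)
    (hdom : ∀ x y : A, x * y = 0 → x = 0 ∨ y = 0) {P : TwoSidedIdeal A} (hP : IsPrimeT P) {a b : A}
    (hab : a * b ∈ P) : a ∈ P ∨ b ∈ P := by
  by_cases h0 : P = ⊥
  · rw [h0, TwoSidedIdeal.mem_bot] at hab
    rw [h0, TwoSidedIdeal.mem_bot, TwoSidedIdeal.mem_bot]
    exact hdom _ _ hab
  obtain ⟨f, hf, hfP⟩ := exists_poly he hgen h0
  obtain ⟨c, -, hc⟩ := exists_root_mem he.1 hP hf hfP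
  by_cases hc0 : c = 0
  · rw [hc0, map_zero, sub_zero] at hc
    set J := TwoSidedIdeal.span {z} with hJ
    have hz0 : quo (F := F) J z = 0 := (quo_eq_zero J).mpr (TwoSidedIdeal.subset_span rfl)
    have hW : IsW F (fun n : ℤ => - quo (F := F) J (e (n - 1))) := by
      intro m n j hmn
      beta_reduce
      rw [neg_mul_neg, neg_mul_neg, ← map_mul, ← map_mul, ← map_sub, he.2, map_add, map_smul]
      have h1 : (quo (F := F) J) (if m - 1 + (n - 1) = 0 then
          ((((m - 1 : ℤ) : F) ^ 3 - ((m - 1 : ℤ) : F)) / 12) • z else 0) = 0 := by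
        split_ifs
        · rw [map_smul, hz0, smul_zero]
        · exact map_zero _
      rw [h1, add_zero, smul_neg, ← neg_smul]
      have h2 : (Lab.one : ℤ) = 1 := rfl
      have h3 : ∀ k : ℤ, (Lab.c k : ℤ) = k := fun k => rfl
      rw [h2] at hmn
      rw [h3, h3]
      congr 2
      · push_cast
        ring
      · congr 1
        omega
    have hg : Algebra.adjoin F (Set.range fun n : ℤ => - quo (F := F) J (e (n - 1))) = ⊤ := by
      rw [eq_top_iff]
      intro y _
      obtain ⟨x, rfl⟩ := quo_surj (F := F) J y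
      have hx : x ∈ Algebra.adjoin F (insert z (Set.range e)) := by rw [hgen]; trivial
      induction hx using Algebra.adjoin_induction with
      | mem x hx =>
        rcases hx with rfl | ⟨n, rfl⟩
        · rw [hz0]; exact Subalgebra.zero_mem _
        · have h1 : - quo (F := F) J (e (n + 1 - 1)) ∈
              Algebra.adjoin F (Set.range fun n : ℤ => - quo (F := F) J (e (n - 1))) :=
            Algebra.subset_adjoin ⟨n + 1, rfl⟩
          have h2 := Subalgebra.neg_mem _ h1
          rwa [neg_neg, add_sub_cancel_right] at h2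
      | algebraMap r => rw [AlgHom.commutes]; exact Subalgebra.algebraMap_mem _ _
      | add x y _ _ hx hy => rw [map_add]; exact Subalgebra.add_mem _ (hx trivial) (hy trivial)
      | mul x y _ _ hx hy => rw [map_mul]; exact Subalgebra.mul_mem _ (hx trivial) (hy trivial)
    have hker : ∀ x, (quo (F := F) J).toRingHom x = 0 → x ∈ P := by
      intro x hx
      have h1 : x ∈ J := (quo_eq_zero (F := F) J).mp hx
      have h2 : J ≤ P := by
        rw [hJ, TwoSidedIdeal.span_le]
        simpa using hc
      exact h2 h1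
    have hdom' : ∀ x y : Quo J, x * y = 0 → x = 0 ∨ y = 0 := by
      intro x y hxy
      obtain ⟨x, rfl⟩ := quo_surj (F := F) J x
      obtain ⟨y, rfl⟩ := quo_surj (F := F) J y
      rw [← map_mul, quo_eq_zero] at hxy
      rw [quo_eq_zero, quo_eq_zero]
      have h1 : J = TwoSidedIdeal.span {z - algebraMap F A 0} := by
        rw [map_zero, sub_zero]
      rw [h1] at hxy ⊢
      exact VirDom.vir_dom he hgen β hβ hxy
    have h2 := cp_wit (F := F) hW (span_of_adjoin hg) hdom'
      (img_prime (φ := (quo (F := F) J).toRingHom) (quo_surj J) hker hP)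
      (a := quo (F := F) J a) (b := quo (F := F) J b) (by
        rw [← map_mul]
        exact (map_mem_img hker).mpr hab)
    rcases h2 with h | h
    · left; exact (map_mem_img hker).mp h
    · right; exact (map_mem_img hker).mp h
  · have h1 := eq_span he hgen hc0 hP.1 hc
    rw [h1] at hab ⊢
    exact VirDom.vir_dom he hgen β hβ hab

/-- Annihilators of simple modules are prime. -/
lemma prime_of_ann {M : Type} [AddCommGroup M] [Module A M] [IsSimpleModule A M]
    {P : TwoSidedIdeal A} (hP : ∀ a : A, a ∈ P ↔ ∀ x : M, a • x = 0) : IsPrimeT P := by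
  have hnt : Nontrivial M := IsSimpleModule.nontrivial A M
  obtain ⟨m0, hm0⟩ := exists_ne (0 : M)
  apply isPrimeT_of_elt
  · intro h
    rw [hP] at h
    exact hm0 (by rw [← one_smul A m0]; exact h m0)
  · intro a b h
    by_contra hcon
    push Not at hcon
    obtain ⟨ha, hb⟩ := hcon
    rw [hP] at ha hb
    push Not at ha hb
    obtain ⟨x, hx⟩ := ha
    obtain ⟨y, hy⟩ := hb
    have h1 : Submodule.span A {b • y} = ⊤ := by
      rcases eq_bot_or_eq_top (Submodule.span A {b • y}) with h | h
      · rw [Submodule.span_singleton_eq_bot] at h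
        exact absurd h hy
      · exact h
    have h2 : x ∈ Submodule.span A {b • y} := by rw [h1]; trivial
    obtain ⟨u, rfl⟩ := Submodule.mem_span_singleton.mp h2
    apply hx
    have h3 := (hP _).mp (h u) y
    rwa [mul_smul, mul_smul] at h3

end main

end Pool.Agent.R693.C
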