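import Mathlib

/-!
Local operators: an action of the vector fields `p ∂`, `p` in `K[x]`, on a vector space, such that every
vector is killed by all `p` divisible by a power of `∏ (x - c)`, is a sum of commuting local actions.
-/

set_option autoImplicit false
set_option linter.unusedSectionVars false

namespace Pool.Agent.R693.C

open Polynomial

section eps
variable {K : Type*} [Field K]

lemma cop {b c : K} (h : b ≠ c) (M N : ℕ) : IsCoprime ((X - C b) ^ M : K[X]) ((X - C c) ^ N) :=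
  (isCoprime_X_sub_C_of_isUnit_sub (sub_ne_zero.mpr h).isUnit).pow

/-- `ε` is the idempotent of the point `c` modulo `M`-th powers. -/
def IsEps (s : Finset K) (c : K) (M : ℕ) (ε : K[X]) : Prop :=
  (X - C c) ^ M ∣ ε - 1 ∧ ∀ b ∈ s, b ≠ c → (X - C b) ^ M ∣ ε

lemma exists_eps (s : Finset K) (c : K) (M : ℕ) : ∃ ε : K[X], IsEps s c M ε := by
  classical
  have h1 : IsCoprime ((X - C c) ^ M : K[X]) (∏ b ∈ s.erase c, (X - C b) ^ M) :=
    IsCoprime.prod_right fun b hb => cop (Finset.ne_of_mem_erase hb).symm M M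
  obtain ⟨u, w, huw⟩ := h1
  refine ⟨w * ∏ b ∈ s.erase c, (X - C b) ^ M, ?_, ?_⟩
  · refine ⟨-u, ?_⟩
    rw [← huw]; ring
  · intro b hb hbc
    exact Dvd.dvd.mul_left (Finset.dvd_prod_of_mem _ (Finset.mem_erase.mpr ⟨hbc, hb⟩)) _

lemma IsEps.mono {s : Finset K} {c : K} {M N : ℕ} (h : M ≤ N) {ε : K[X]} (hε : IsEps s c N ε) :
    IsEps s c M ε :=
  ⟨(pow_dvd_pow _ h).trans hε.1, fun b hb hbc => (pow_dvd_pow _ h).trans (hε.2 b hb hbc)⟩

lemma all_dvd {s : Finset K} {M : ℕ} {p : K[X]} (h : ∀ b ∈ s, (X - C b) ^ M ∣ p) :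
    (∏ b ∈ s, (X - C b)) ^ M ∣ p := by
  rw [← Finset.prod_pow]
  apply Finset.prod_dvd_of_coprime
  · intro a _ b _ hab
    exact cop hab M M
  · exact h

lemma IsEps.sub {s : Finset K} {c : K} {M : ℕ} {ε ε' : K[X]} (h : IsEps s c M ε)
    (h' : IsEps s c M ε') : (∏ b ∈ s, (X - C b)) ^ M ∣ ε - ε' := by
  apply all_dvd
  intro b hb
  by_cases hbc : b = c
  · subst hbc
    have : ε - ε' = (ε - 1) - (ε' - 1) := by ring
    rw [this]
    exact dvd_sub h.1 h'.1
  · exact dvd_sub (h.2 b hb hbc) (h'.2 b hb hbc)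

end eps

variable {K : Type*} [Field K] {V : Type*} [AddCommGroup V] [Module K V]
variable (s : Finset K) (ρ : K[X] →ₗ[K] Module.End K V)

/-- `v` is killed by the multiples of the `M`-th power. -/
def Kl (M : ℕ) (v : V) : Prop := ∀ p : K[X], (∏ b ∈ s, (X - C b)) ^ M ∣ p → ρ p v = 0

variable {s ρ}

lemma Kl.mono {M N : ℕ} (h : M ≤ N) {v : V} (hv : Kl s ρ M v) : Kl s ρ N v :=
  fun p hp => hv p ((pow_dvd_pow _ h).trans hp)

lemma Kl.add {M : ℕ} {v w : V} (hv : Kl s ρ M v) (hw : Kl s ρ M w) : Kl s ρ M (v + w) :=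
  fun p hp => by rw [map_add, hv p hp, hw p hp, add_zero]

lemma Kl.smul {M : ℕ} {v : V} (hv : Kl s ρ M v) (r : K) : Kl s ρ M (r • v) :=
  fun p hp => by rw [map_smul, hv p hp, smul_zero]

lemma eps_eq {c : K} {M N : ℕ} {v : V} (hM : Kl s ρ M v) (hN : Kl s ρ N v) {ε ε' : K[X]}
    (h : IsEps s c M ε) (h' : IsEps s c N ε') (p : K[X]) : ρ (ε * p) v = ρ (ε' * p) v := by
  wlog hle : M ≤ N generalizing M N ε ε'
  · exact (this hN hM h' h (by omega)).symm
  have h1 := hM ((ε - ε') * p) (Dvd.dvd.mul_right (h.sub (h'.mono hle)) _)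
  rw [sub_mul, map_sub, LinearMap.sub_apply, sub_eq_zero] at h1
  exact h1

section defs

variable (hsm : ∀ v : V, ∃ M, Kl s ρ M v)

/-- The local operator, as a function. -/
noncomputable def locF (c : K) (p : K[X]) (v : V) : V :=
  ρ ((exists_eps s c (hsm v).choose).choose * p) v

include hsm in
lemma locF_eq {c : K} {M : ℕ} {v : V} (hM : Kl s ρ M v) {ε : K[X]} (h : IsEps s c M ε) (p : K[X]) :
    locF hsm c p v = ρ (ε * p) v :=
  eps_eq (hsm v).choose_spec hM (exists_eps s c (hsm v).choose).choose_spec h p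

/-- The local operator. -/
noncomputable def loc (c : K) : K[X] →ₗ[K] Module.End K V where
  toFun p :=
    { toFun := locF hsm c p
      map_add' := by
        intro v w
        obtain ⟨M, hM⟩ := hsm v
        obtain ⟨N, hN⟩ := hsm w
        obtain ⟨ε, hε⟩ := exists_eps s c (max M N)
        have h1 := hM.mono (le_max_left M N)
        have h2 := hN.mono (le_max_right M N)
        rw [locF_eq hsm (h1.add h2) hε, locF_eq hsm h1 hε, locF_eq hsm h2 hε, map_add]
      map_smul' := by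
        intro r v
        obtain ⟨M, hM⟩ := hsm v
        obtain ⟨ε, hε⟩ := exists_eps s c M
        rw [locF_eq hsm (hM.smul r) hε, locF_eq hsm hM hε, map_smul]
        rfl }
  map_add' := by
    intro p q
    apply LinearMap.ext
    intro v
    obtain ⟨M, hM⟩ := hsm v
    obtain ⟨ε, hε⟩ := exists_eps s c M
    change locF hsm c (p + q) v = locF hsm c p v + locF hsm c q v
    rw [locF_eq hsm hM hε, locF_eq hsm hM hε, locF_eq hsm hM hε, mul_add, map_add,
      LinearMap.add_apply]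
  map_smul' := by
    intro r p
    apply LinearMap.ext
    intro v
    obtain ⟨M, hM⟩ := hsm v
    obtain ⟨ε, hε⟩ := exists_eps s c M
    change locF hsm c (r • p) v = r • locF hsm c p v
    rw [locF_eq hsm hM hε, locF_eq hsm hM hε, mul_smul_comm, map_smul, LinearMap.smul_apply]

lemma loc_eq {c : K} {M : ℕ} {v : V} (hM : Kl s ρ M v) {ε : K[X]} (h : IsEps s c M ε) (p : K[X]) :
    loc hsm c p v = ρ (ε * p) v := locF_eq hsm hM h p

lemma loc_kill {c : K} {M : ℕ} {v : V} (hM : Kl s ρ M v) {p : K[X]} (hp : (X - C c) ^ M ∣ p) :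
    loc hsm c p v = 0 := by
  obtain ⟨ε, hε⟩ := exists_eps s c M
  rw [loc_eq hsm hM hε]
  apply hM
  apply all_dvd
  intro b hb
  by_cases hbc : b = c
  · subst hbc
    exact Dvd.dvd.mul_left hp _
  · exact Dvd.dvd.mul_right (hε.2 b hb hbc) _

lemma sum_loc (p : K[X]) : ρ p = ∑ c ∈ s, loc hsm c p := by
  classical
  apply LinearMap.ext
  intro v
  obtain ⟨M, hM⟩ := hsm v
  choose ε hε using fun c => exists_eps s c M
  rw [LinearMap.sum_apply]
  have h1 : ∀ c ∈ s, loc hsm c p v = ρ (ε c * p) v := fun c _ => loc_eq hsm hM (hε c) p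
  rw [Finset.sum_congr rfl h1, ← LinearMap.sum_apply, ← map_sum, ← Finset.sum_mul, ← sub_eq_zero,
    ← LinearMap.sub_apply, ← map_sub]
  apply hM
  apply all_dvd
  intro b hb
  have h2 : p - (∑ c ∈ s, ε c) * p = -((ε b - 1) * p) - (∑ c ∈ s.erase b, ε c) * p := by
    rw [← Finset.add_sum_erase s _ hb]; ring
  rw [h2]
  refine dvd_sub ((dvd_neg).mpr (Dvd.dvd.mul_right (hε b).1 _)) (Dvd.dvd.mul_right ?_ _)
  apply Finset.dvd_sum
  intro c hc
  exact (hε c).2 b hb (Finset.ne_of_mem_erase hc).symm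

variable (hbr : ∀ p q : K[X], ρ p * ρ q - ρ q * ρ p = ρ (p * derivative q - derivative p * q))

include hbr in
lemma loc_br {c : K} (p q : K[X]) : loc hsm c p * loc hsm c q - loc hsm c q * loc hsm c p =
    loc hsm c (p * derivative q - derivative p * q) := by
  apply LinearMap.ext
  intro v
  obtain ⟨M1, h1⟩ := hsm v
  obtain ⟨M2, h2⟩ := hsm (loc hsm c q v)
  obtain ⟨M3, h3⟩ := hsm (loc hsm c p v)
  set M := max M1 (max M2 M3) with hM
  have h1 := h1.mono (show M1 ≤ M by omega)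
  have h2 := h2.mono (show M2 ≤ M by omega)
  have h3 := h3.mono (show M3 ≤ M by omega)
  obtain ⟨ε, hε⟩ := exists_eps s c M
  rw [LinearMap.sub_apply, Module.End.mul_apply, Module.End.mul_apply, loc_eq hsm h2 hε,
    loc_eq hsm h3 hε, loc_eq hsm h1 hε, loc_eq hsm h1 hε, loc_eq hsm h1 hε,
    ← Module.End.mul_apply, ← Module.End.mul_apply, ← LinearMap.sub_apply, hbr, ← sub_eq_zero,
    ← LinearMap.sub_apply, ← map_sub]
  apply h1
  have h4 : ε * p * derivative (ε * q) - derivative (ε * p) * (ε * q) -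
      ε * (p * derivative q - derivative p * q) =
      ε * (ε - 1) * (p * derivative q - derivative p * q) := by
    rw [derivative_mul, derivative_mul]; ring
  rw [h4]
  apply Dvd.dvd.mul_right
  apply all_dvd
  intro b hb
  by_cases hbc : b = c
  · subst hbc
    exact Dvd.dvd.mul_left hε.1 _
  · exact Dvd.dvd.mul_right (hε.2 b hb hbc) _

include hbr in
lemma loc_comm {c c' : K} (hcc : c ≠ c') (hc : c ∈ s) (hc' : c' ∈ s) (p q : K[X]) :
    loc hsm c p * loc hsm c' q = loc hsm c' q * loc hsm c p := by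
  apply LinearMap.ext
  intro v
  obtain ⟨M1, h1⟩ := hsm v
  obtain ⟨M2, h2⟩ := hsm (loc hsm c' q v)
  obtain ⟨M3, h3⟩ := hsm (loc hsm c p v)
  set M := max M1 (max M2 M3) with hM
  have h1' := h1.mono (show M1 ≤ M by omega)
  have h1 := h1.mono (show M1 ≤ M + 1 by omega)
  have h2 := h2.mono (show M2 ≤ M + 1 by omega)
  have h3 := h3.mono (show M3 ≤ M + 1 by omega)
  obtain ⟨ε, hε⟩ := exists_eps s c (M + 1)
  obtain ⟨ε', hε'⟩ := exists_eps s c' (M + 1)
  rw [← sub_eq_zero, Module.End.mul_apply, Module.End.mul_apply, loc_eq hsm h2 hε,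
    loc_eq hsm h3 hε', loc_eq hsm h1 hε, loc_eq hsm h1 hε',
    ← Module.End.mul_apply, ← Module.End.mul_apply, ← LinearMap.sub_apply, hbr]
  apply h1'
  have key : ∀ b : K, ∀ f g : K[X], (X - C b) ^ (M + 1) ∣ f →
      (X - C b) ^ M ∣ f * g ∧ (X - C b) ^ M ∣ derivative f * g := by
    intro b f g hf
    obtain ⟨t, rfl⟩ := hf
    refine ⟨Dvd.dvd.mul_right (Dvd.dvd.mul_right (pow_dvd_pow _ (by omega)) _) _,
      Dvd.dvd.mul_right ?_ _⟩
    rw [derivative_mul, derivative_X_sub_C_pow, Nat.add_sub_cancel]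
    refine dvd_add ⟨C (((M + 1 : ℕ) : K)) * t, by ring⟩ ⟨(X - C b) * derivative t, by ring⟩
  apply all_dvd
  intro b hb
  by_cases hbc : b = c
  · have hb1 : (X - C b) ^ (M + 1) ∣ ε' * q := by
      rw [hbc]
      exact Dvd.dvd.mul_right (hε'.2 c hc hcc) _
    have h5 := key b (ε' * q) (ε * p) hb1
    have h6 := key b (ε' * q) (derivative (ε * p)) hb1
    refine dvd_sub ?_ ?_
    · rw [mul_comm]; exact h5.2
    · rw [mul_comm]; exact h6.1
  · have hb1 : (X - C b) ^ (M + 1) ∣ ε * p := Dvd.dvd.mul_right (hε.2 b hb hbc) _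
    exact dvd_sub (key b (ε * p) _ hb1).1 (key b (ε * p) _ hb1).2

/-- The operators `(x - c)^l ∂` at the point `c`. -/
noncomputable def EE (c : K) (l : ℕ) : Module.End K V := loc hsm c ((X - C c) ^ l)

include hbr in
lemma EE_br (c : K) (a b : ℕ) : EE hsm c a * EE hsm c b - EE hsm c b * EE hsm c a =
    ((b : K) - a) • EE hsm c (a + b - 1) := by
  unfold EE
  rw [loc_br hsm hbr, ← map_smul]
  congr 1
  rw [derivative_X_sub_C_pow, derivative_X_sub_C_pow]
  rcases a with _ | a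
  · rcases b with _ | b
    · simp
    · simp only [pow_zero, Nat.cast_zero, map_zero, zero_mul, sub_zero, one_mul, zero_add,
        Nat.add_sub_cancel]
      rw [smul_eq_C_mul]
  · rcases b with _ | b
    · simp only [pow_zero, Nat.cast_zero, map_zero, zero_mul, mul_zero, zero_sub, mul_one, add_zero,
        Nat.add_sub_cancel]
      rw [smul_eq_C_mul, map_neg, neg_mul]
    · rw [smul_eq_C_mul, map_sub, show a + 1 + (b + 1) - 1 = a + b + 1 by omega,
        Nat.add_sub_cancel, Nat.add_sub_cancel]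
      ring

include hbr in
lemma EE_comm {c c' : K} (hcc : c ≠ c') (hc : c ∈ s) (hc' : c' ∈ s) (a b : ℕ) :
    EE hsm c a * EE hsm c' b = EE hsm c' b * EE hsm c a := loc_comm hsm hbr hcc hc hc' _ _

lemma EE_kill (v : V) : ∃ M, ∀ c, ∀ l, M ≤ l → EE hsm c l v = 0 := by
  obtain ⟨M, hM⟩ := hsm v
  exact ⟨M, fun c l hl => loc_kill hsm hM (pow_dvd_pow _ hl)⟩

lemma rho_EE (p : K[X]) : ρ p = ∑ c ∈ s, (taylor c p).sum fun i a => a • EE hsm c i := by
  rw [sum_loc hsm p]
  refine Finset.sum_congr rfl fun c _ => ?_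
  have h1 := sum_taylor_eq p c
  conv_lhs => rw [← h1]
  unfold Polynomial.sum EE
  rw [map_sum]
  refine Finset.sum_congr rfl fun i _ => ?_
  beta_reduce
  rw [← map_smul, smul_eq_C_mul]

end defs

end Pool.Agent.R693.C
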