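import Pool.Agent.R693.E.Defs

/-!
One point: a smooth module over the vector fields at one point contains an induced module.
-/

set_option autoImplicit false
set_option linter.unusedSectionVars false

namespace Pool.Agent.R693.C

open Pool.Agent.R693.O

section one
variable {K : Type} [Field K] [CharZero K] {V : Type} [AddCommGroup V] [Module K V]
variable {E : ℕ → Module.End K V}

variable (E) in
/-- The vectors killed by `E l`, `l ≥ M`. -/
def UU (M : ℕ) : Submodule K V where
  carrier := {v | ∀ l, M ≤ l → E l v = 0}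
  zero_mem' := fun l _ => map_zero _
  add_mem' := fun {v w} hv hw l hl => by rw [map_add, hv l hl, hw l hl, add_zero]
  smul_mem' := fun r v hv l hl => by rw [map_smul, hv l hl, smul_zero]

lemma mem_UU {M : ℕ} {v : V} : v ∈ UU E M ↔ ∀ l, M ≤ l → E l v = 0 := Iff.rfl

variable (hbr : ∀ a b, E a * E b - E b * E a = ((b : K) - a) • E (a + b - 1))

include hbr in
lemma br_apply (a b : ℕ) (v : V) : E a (E b v) = E b (E a v) + ((b : K) - a) • E (a + b - 1) v := by
  have h := LinearMap.congr_fun (hbr a b) v
  rw [LinearMap.sub_apply, LinearMap.smul_apply, Module.End.mul_apply, Module.End.mul_apply] at h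
  rw [← h]; abel

include hbr in
lemma UU_E {M a : ℕ} (ha : 1 ≤ a) {v : V} (hv : v ∈ UU E M) : E a v ∈ UU E M := by
  intro l hl
  rw [br_apply hbr, hv l hl, hv (l + a - 1) (by omega), map_zero, smul_zero, add_zero]

lemma UU_comm {M : ℕ} {A : Module.End K V} (hA : ∀ l, A * E l = E l * A) {v : V} (hv : v ∈ UU E M) :
    A v ∈ UU E M := by
  intro l hl
  have h := LinearMap.congr_fun (hA l) v
  rw [Module.End.mul_apply, Module.End.mul_apply] at h
  rw [← h, hv l hl, map_zero]

/-- The constants. -/
def cst (K : Type) [Field K] (m : ℕ) : ℕ → K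
  | 0 => 1
  | j + 1 => -((m + j + 1 : ℕ) : K) * cst K m j

lemma cst_ne (m j : ℕ) : cst K m j ≠ 0 := by
  induction j with
  | zero => exact one_ne_zero
  | succ j ih => exact mul_ne_zero (neg_ne_zero.mpr (Nat.cast_ne_zero.mpr (by omega))) ih

include hbr in
lemma E_pow {m : ℕ} {v : V} (hv : v ∈ UU E (m + 1)) (j : ℕ) :
    (∀ l, m + j < l → E l ((E 0 ^ j) v) = 0) ∧ E (m + j) ((E 0 ^ j) v) = cst K m j • E m v := by
  induction j with
  | zero =>
    refine ⟨fun l hl => ?_, ?_⟩
    · rw [pow_zero]; exact hv l (by omega)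
    · rw [pow_zero, cst, one_smul]; rfl
  | succ j ih =>
    have h1 : (E 0 ^ (j + 1)) v = E 0 ((E 0 ^ j) v) := by rw [pow_succ']; rfl
    refine ⟨fun l hl => ?_, ?_⟩
    · rw [h1, br_apply hbr, ih.1 l (by omega), ih.1 (l + 0 - 1) (by omega), map_zero, smul_zero,
        add_zero]
    · rw [h1, br_apply hbr, ih.1 (m + (j + 1)) (by omega), map_zero, zero_add,
        show m + (j + 1) + 0 - 1 = m + j by omega, ih.2, smul_smul]
      congr 1
      rw [cst]; push_cast; ring

/-! ### The space -/

section space
variable (U : Type) [AddCommGroup U] [Module K U]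

variable (K) in
/-- The shift. -/
noncomputable def Dh : Module.End K (ℕ →₀ U) :=
  Finsupp.lsum ℕ fun k => Finsupp.lsingle (k + 1)

variable (K) in
/-- The lowering operator. -/
noncomputable def yh : Module.End K (ℕ →₀ U) :=
  Finsupp.lsum ℕ fun k => (-(k : K)) • Finsupp.lsingle (k - 1)

variable {U}

lemma Dh_single (k : ℕ) (v : U) : Dh K U (Finsupp.single k v) = Finsupp.single (k + 1) v := by
  unfold Dh
  rw [Finsupp.lsum_single]
  rfl

lemma yh_single (k : ℕ) (v : U) : yh K U (Finsupp.single k v) =
    (-(k : K)) • Finsupp.single (k - 1) v := by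
  unfold yh
  rw [Finsupp.lsum_single]
  rfl

variable (K U) in
/-- Operators on the coefficients. -/
noncomputable def hU : Module.End K U →ₐ[K] Module.End K (ℕ →₀ U) where
  toFun g := Finsupp.mapRange.linearMap g
  map_one' := by
    apply Finsupp.lhom_ext
    intro k v
    simp
  map_mul' := by
    intro g h
    apply Finsupp.lhom_ext
    intro k v
    simp
  map_zero' := by
    apply Finsupp.lhom_ext
    intro k v
    simp
  map_add' := by
    intro g h
    apply Finsupp.lhom_ext
    intro k v
    simp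
  commutes' := by
    intro r
    apply Finsupp.lhom_ext
    intro k v
    simp

lemma hU_single (g : Module.End K U) (k : ℕ) (v : U) :
    hU K U g (Finsupp.single k v) = Finsupp.single k (g v) := by
  change Finsupp.mapRange.linearMap g (Finsupp.single k v) = _
  simp

lemma Dh_hU (g : Module.End K U) : Dh K U * hU K U g = hU K U g * Dh K U := by
  apply Finsupp.lhom_ext
  intro k v
  rw [Module.End.mul_apply, Module.End.mul_apply, hU_single, Dh_single, Dh_single, hU_single]

lemma yh_hU (g : Module.End K U) : yh K U * hU K U g = hU K U g * yh K U := by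
  apply Finsupp.lhom_ext
  intro k v
  rw [Module.End.mul_apply, Module.End.mul_apply, hU_single, yh_single, yh_single, map_smul,
    hU_single]

lemma Dh_yh : Dh K U * yh K U = yh K U * Dh K U + 1 := by
  apply Finsupp.lhom_ext
  intro k v
  rw [LinearMap.add_apply, Module.End.mul_apply, Module.End.mul_apply, Module.End.one_apply,
    yh_single, map_smul, Dh_single, Dh_single, yh_single, Nat.add_sub_cancel]
  rcases k with _ | k
  · simp
  · rw [Nat.add_sub_cancel]
    have : (Finsupp.single (k + 1) v : ℕ →₀ U) = (1 : K) • Finsupp.single (k + 1) v :=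
      (one_smul _ _).symm
    conv_rhs => rw [this]
    rw [smul_smul, ← add_smul]
    congr 1
    push_cast; ring

lemma ypow_D (j : ℕ) : yh K U ^ j * Dh K U = Dh K U * yh K U ^ j - (j : K) • yh K U ^ (j - 1) := by
  induction j with
  | zero => simp
  | succ j ih =>
    have h1 : yh K U * Dh K U = Dh K U * yh K U - 1 := by rw [Dh_yh]; abel
    rw [pow_succ, mul_assoc, h1, mul_sub, mul_one, ← mul_assoc, ih, sub_mul, smul_mul_assoc,
      mul_assoc (Dh K U), Nat.add_sub_cancel]
    rcases j with _ | j
    · simp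
    · rw [Nat.add_sub_cancel, ← pow_succ, ← pow_succ]
      push_cast
      rw [add_smul ((j : K) + 1) 1, one_smul]
      abel

/-- The operators of the induced module. -/
noncomputable def Eh (Z : ℕ → Module.End K U) (l : ℕ) : Module.End K (ℕ →₀ U) :=
  (∑ j ∈ Finset.range l, (l.choose j : K) • (yh K U ^ j * hU K U (Z (l - j)))) +
    Dh K U * yh K U ^ l

lemma Eh_zero (Z : ℕ → Module.End K U) : Eh Z 0 = Dh K U := by
  unfold Eh; simp

lemma Eh_D (Z : ℕ → Module.End K U) (l : ℕ) :
    Eh Z l * Dh K U = Dh K U * Eh Z l - (l : K) • Eh Z (l - 1) := by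
  rcases l with _ | l
  · rw [Eh_zero]; simp
  · rw [Nat.add_sub_cancel]
    unfold Eh
    have h1 : ∀ j ∈ Finset.range (l + 1), ((l + 1).choose j : K) •
        (yh K U ^ j * hU K U (Z (l + 1 - j))) * Dh K U =
        Dh K U * (((l + 1).choose j : K) • (yh K U ^ j * hU K U (Z (l + 1 - j)))) -
          (((l + 1).choose j * j : ℕ) : K) • (yh K U ^ (j - 1) * hU K U (Z (l + 1 - j))) := by
      intro j _
      rw [smul_mul_assoc, mul_assoc, ← Dh_hU, ← mul_assoc, ypow_D, sub_mul, smul_sub,
        smul_mul_assoc, smul_smul, mul_smul_comm, mul_assoc]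
      push_cast
      rfl
    rw [add_mul, Finset.sum_mul, Finset.sum_congr rfl h1, Finset.sum_sub_distrib, ← Finset.mul_sum,
      mul_assoc (Dh K U), ypow_D, mul_add, Nat.add_sub_cancel]
    rw [Finset.sum_range_succ' (fun j => (((l + 1).choose j * j : ℕ) : K) •
      (yh K U ^ (j - 1) * hU K U (Z (l + 1 - j)))) l, mul_zero, Nat.cast_zero, zero_smul, add_zero]
    have h2 : ∀ j ∈ Finset.range l, (((l + 1).choose (j + 1) * (j + 1) : ℕ) : K) •
        (yh K U ^ (j + 1 - 1) * hU K U (Z (l + 1 - (j + 1)))) =
        ((l + 1 : ℕ) : K) • ((l.choose j : K) • (yh K U ^ j * hU K U (Z (l - j)))) := by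
      intro j _
      rw [Nat.add_sub_cancel, Nat.add_sub_add_right, smul_smul, ← Nat.add_one_mul_choose_eq]
      push_cast
      rfl
    rw [Finset.sum_congr rfl h2, ← Finset.smul_sum, smul_add, mul_sub, mul_smul_comm, ← mul_assoc]
    abel

end space

/-! ### The map -/

variable (E) in
/-- The map to the module. -/
noncomputable def Ph (M : ℕ) : (ℕ →₀ UU E M) →ₗ[K] V :=
  Finsupp.lsum ℕ fun k => (E 0 ^ k) ∘ₗ (UU E M).subtype

lemma Ph_single (M k : ℕ) (v : UU E M) : Ph E M (Finsupp.single k v) = (E 0 ^ k) (v : V) := by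
  unfold Ph
  rw [Finsupp.lsum_single]
  rfl

lemma Ph_D (M : ℕ) (f : ℕ →₀ UU E M) : Ph E M (Dh K (UU E M) f) = E 0 (Ph E M f) := by
  have : Ph E M ∘ₗ Dh K (UU E M) = E 0 ∘ₗ Ph E M := by
    apply Finsupp.lhom_ext
    intro k v
    rw [LinearMap.comp_apply, LinearMap.comp_apply, Dh_single, Ph_single, Ph_single, pow_succ']
    rfl
  exact LinearMap.congr_fun this f

include hbr in
lemma Ph_inj {m : ℕ} (hm : ∀ v ∈ UU E (m + 1), E m v = 0 → v = 0) :
    Function.Injective (Ph E (m + 1)) := by
  classical
  rw [injective_iff_map_eq_zero]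
  intro f hf
  by_contra hne
  obtain ⟨k, hk, hmax⟩ := Finset.exists_max_image f.support id (Finsupp.support_nonempty_iff.mpr hne)
  have h1 : E (m + k) (Ph E (m + 1) f) = cst K m k • E m (f k : V) := by
    unfold Ph
    rw [Finsupp.lsum_apply, Finsupp.sum, map_sum, Finset.sum_eq_single k]
    · exact (E_pow hbr (f k).2 k).2
    · intro j hj hjk
      have := hmax j hj
      change j ≤ k at this
      exact (E_pow hbr (f j).2 j).1 _ (by omega)
    · intro h; exact absurd hk h
  rw [hf, map_zero, eq_comm, smul_eq_zero] at h1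
  have h2 := hm _ (f k).2 (h1.resolve_left (cst_ne m k))
  rw [Finsupp.mem_support_iff] at hk
  exact hk (Subtype.ext h2)

variable (E) in
open Classical in
/-- The operators on the coefficients. -/
noncomputable def ZZ (M l : ℕ) : Module.End K (UU E M) :=
  if h : ∀ v ∈ UU E M, E l v ∈ UU E M then (E l).restrict h else 0

include hbr in
lemma ZZ_apply {M l : ℕ} (hl : 1 ≤ l) (v : UU E M) : (ZZ E M l v : V) = E l v := by
  unfold ZZ
  rw [dif_pos fun v hv => UU_E hbr hl hv]
  rfl

lemma yh_zero {U : Type} [AddCommGroup U] [Module K U] {j : ℕ} (hj : 1 ≤ j) (v : U) :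
    (yh K U ^ j) (Finsupp.single 0 v) = 0 := by
  obtain ⟨j, rfl⟩ : ∃ i, j = i + 1 := ⟨j - 1, by omega⟩
  rw [pow_succ, Module.End.mul_apply, yh_single, Nat.cast_zero, neg_zero, zero_smul, map_zero]

include hbr in
lemma Ph_Eh (M : ℕ) (l : ℕ) (f : ℕ →₀ UU E M) :
    Ph E M (Eh (ZZ E M) l f) = E l (Ph E M f) := by
  have key : ∀ k : ℕ, ∀ l : ℕ, ∀ v : UU E M, Ph E M (Eh (ZZ E M) l (Finsupp.single k v)) =
      E l (Ph E M (Finsupp.single k v)) := by
    intro k
    induction k with
    | zero =>
      intro l v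
      rcases Nat.eq_zero_or_pos l with rfl | hl
      · rw [Eh_zero, Ph_D]
      · obtain ⟨l, rfl⟩ : ∃ i, l = i + 1 := ⟨l - 1, by omega⟩
        unfold Eh
        rw [LinearMap.add_apply, LinearMap.sum_apply, Module.End.mul_apply, yh_zero hl, map_zero,
          add_zero, Finset.sum_range_succ']
        have h1 : ∀ j ∈ Finset.range l, (((l + 1).choose (j + 1) : K) •
            (yh K (UU E M) ^ (j + 1) * hU K (UU E M) (ZZ E M (l + 1 - (j + 1)))))
            (Finsupp.single 0 v) = 0 := by
          intro j _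
          rw [LinearMap.smul_apply, Module.End.mul_apply, hU_single, yh_zero (by omega), smul_zero]
        rw [Finset.sum_congr rfl h1, Finset.sum_const_zero, zero_add, Nat.choose_zero_right,
          Nat.cast_one, one_smul, pow_zero, one_mul, hU_single, Ph_single, Ph_single, pow_zero,
          Nat.sub_zero]
        exact ZZ_apply hbr hl v
    | succ k ih =>
      intro l v
      have h1 : (Finsupp.single (k + 1) v : ℕ →₀ UU E M) =
          Dh K (UU E M) (Finsupp.single k v) := (Dh_single k v).symm
      have h2 := LinearMap.congr_fun (Eh_D (ZZ E M) l) (Finsupp.single k v)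
      rw [Module.End.mul_apply, LinearMap.sub_apply, Module.End.mul_apply, LinearMap.smul_apply]
        at h2
      rw [h1, h2, map_sub, Ph_D, ih, map_smul, ih, Ph_D, br_apply hbr l 0]
      simp only [Nat.cast_zero, zero_sub, neg_smul, add_zero]
      abel
  have h3 : Ph E M ∘ₗ Eh (ZZ E M) l = E l ∘ₗ Ph E M := by
    apply Finsupp.lhom_ext
    intro k v
    exact key k l v
  exact LinearMap.congr_fun h3 f

end one

end Pool.Agent.R693.C
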