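import Pool.Agent.R693.C.Point

/-!
Several commuting points, one after the other.
-/

set_option autoImplicit false
set_option linter.unusedSectionVars false

namespace Pool.Agent.R693.O

section chain
variable {K : Type} [Field K] {E : Type} [Ring E] [Algebra K E]

lemma ad_adjoin {G : Set E} {x : E} {T : Subalgebra K E} (hGT : Algebra.adjoin K G ≤ T)
    (h : ∀ g ∈ G, x * g - g * x ∈ T) :
    ∀ r ∈ Algebra.adjoin K G, x * r - r * x ∈ T := by
  intro r hr
  induction hr using Algebra.adjoin_induction with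
  | mem y hy => exact h y hy
  | algebraMap k =>
    rw [(Algebra.commutes k x).symm, sub_self]
    exact T.zero_mem
  | add a b _ _ ha hb =>
    have : x * (a + b) - (a + b) * x = (x * a - a * x) + (x * b - b * x) := by noncomm_ring
    rw [this]
    exact T.add_mem ha hb
  | mul a b ha' hb' ha hb =>
    have : x * (a * b) - (a * b) * x = (x * a - a * x) * b + a * (x * b - b * x) := by noncomm_ring
    rw [this]
    exact T.add_mem (T.mul_mem ha (hGT hb')) (T.mul_mem (hGT ha') hb)

lemma Ch.add {n : ℕ} {G : Set E} (h : Ch K n (Algebra.adjoin K G)) {x : E}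
    (hx : ∀ g ∈ G, x * g - g * x ∈ Algebra.adjoin K G) :
    Ch K (n + 1) (Algebra.adjoin K (insert x G)) :=
  ⟨Algebra.adjoin K G, x, h, ad_adjoin le_rfl hx, (Algebra.adjoin_insert_adjoin K G x).symm⟩

lemma Ch.map {n : ℕ} {E' : Type} [Ring E'] [Algebra K E'] (φ : E →ₐ[K] E') :
    ∀ {R : Subalgebra K E}, Ch K n R → Ch K n (R.map φ) := by
  induction n with
  | zero =>
    rintro R rfl
    exact Algebra.map_bot φ
  | succ n ih =>
    rintro R ⟨R₀, x, h₀, hx, rfl⟩
    refine ⟨R₀.map φ, φ x, ih h₀, ?_, ?_⟩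
    · rintro _ ⟨r, hr, rfl⟩
      exact ⟨x * r - r * x, hx r hr, by simp⟩
    · rw [AlgHom.map_adjoin]
      congr 1
      rw [Set.image_insert_eq]
      rfl

lemma Ch.comap {n : ℕ} {A : Subalgebra K E} :
    ∀ {R : Subalgebra K E}, R ≤ A → Ch K n R → Ch K n (R.comap A.val) := by
  have inj : Function.Injective (A.val : A →ₐ[K] E) := Subtype.val_injective
  induction n with
  | zero =>
    rintro R _ rfl
    change Subalgebra.comap A.val ⊥ = ⊥
    rw [← Algebra.map_bot A.val, Subalgebra.comap_map_eq_self_of_injective inj]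
  | succ n ih =>
    rintro R hR ⟨R₀, x, h₀, hx, rfl⟩
    have h1 : R₀ ≤ A := le_trans (fun r hr => Algebra.subset_adjoin (Set.mem_insert_of_mem _ hr)) hR
    have h2 : x ∈ A := hR (Algebra.subset_adjoin (Set.mem_insert _ _))
    refine ⟨R₀.comap A.val, ⟨x, h2⟩, ih h1 h₀, ?_, ?_⟩
    · intro r hr
      exact hx r.1 hr
    · have h3 : (Algebra.adjoin K (insert (⟨x, h2⟩ : A) (R₀.comap A.val : Set A))).map A.val =
          Algebra.adjoin K (insert x (R₀ : Set E)) := by
        rw [AlgHom.map_adjoin]
        congr 1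
        rw [Set.image_insert_eq]
        congr 1
        ext r
        constructor
        · rintro ⟨r, hr, rfl⟩
          exact hr
        · intro hr
          exact ⟨⟨r, h1 hr⟩, hr, rfl⟩
      rw [← h3, Subalgebra.comap_map_eq_self_of_injective inj]

end chain

end Pool.Agent.R693.O

namespace Pool.Agent.R693.C

open Pool.Agent.R693.O

section one
variable {K : Type} [Field K] [CharZero K] {V : Type} [AddCommGroup V] [Module K V]
variable {E : ℕ → Module.End K V}

variable (E) in
/-- The commutant. -/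
abbrev Cz : Subalgebra K (Module.End K V) := Subalgebra.centralizer K (Set.range E)

lemma Cz_comm (a : Cz E) (l : ℕ) : (a : Module.End K V) * E l = E l * a :=
  (Subalgebra.mem_centralizer_iff K |>.mp a.2 (E l) ⟨l, rfl⟩).symm

lemma mem_Cz {a : Module.End K V} (h : ∀ l, a * E l = E l * a) : a ∈ Cz E := by
  rw [Subalgebra.mem_centralizer_iff]
  rintro _ ⟨l, rfl⟩
  exact (h l).symm

variable (E) in
/-- Restriction of the commutant. -/
noncomputable def res (M : ℕ) : Cz E →ₐ[K] Module.End K (UU E M) where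
  toFun a := (a : Module.End K V).restrict (fun _ hv => UU_comm (Cz_comm a) hv)
  map_one' := rfl
  map_mul' _ _ := rfl
  map_zero' := rfl
  map_add' _ _ := rfl
  commutes' _ := rfl

lemma res_apply (M : ℕ) (a : Cz E) (v : UU E M) : (res E M a v : V) = (a : Module.End K V) v := rfl

variable (E) in
/-- The new operators of the commutant. -/
noncomputable def hat (M : ℕ) : Cz E →ₐ[K] Module.End K (ℕ →₀ UU E M) :=
  (hU K (UU E M)).comp (res E M)

lemma Ph_hat (M : ℕ) (a : Cz E) (f : ℕ →₀ UU E M) :
    Ph E M (hat E M a f) = (a : Module.End K V) (Ph E M f) := by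
  have : Ph E M ∘ₗ hat E M a = (a : Module.End K V) ∘ₗ Ph E M := by
    apply Finsupp.lhom_ext
    intro k v
    rw [LinearMap.comp_apply, LinearMap.comp_apply, Ph_single]
    change Ph E M (hU K (UU E M) (res E M a) (Finsupp.single k v)) = _
    rw [hU_single, Ph_single, res_apply]
    have h1 : (E 0 ^ k) * (a : Module.End K V) = a * (E 0 ^ k) :=
      (Commute.pow_left (Cz_comm a 0).symm k)
    exact LinearMap.congr_fun h1 (v : V)
  exact LinearMap.congr_fun this f

variable (hbr : ∀ a b, E a * E b - E b * E a = ((b : K) - a) • E (a + b - 1))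

include hbr in
lemma ZZ_br {M a b : ℕ} (ha : 1 ≤ a) (hb : 1 ≤ b) :
    ZZ E M a * ZZ E M b - ZZ E M b * ZZ E M a = ((b : K) - a) • ZZ E M (a + b - 1) := by
  apply LinearMap.ext
  intro v
  apply Subtype.ext
  have h := LinearMap.congr_fun (hbr a b) (v : V)
  rw [LinearMap.sub_apply, LinearMap.smul_apply, Module.End.mul_apply, Module.End.mul_apply] at h ⊢
  rw [Submodule.coe_sub, Submodule.coe_smul, ZZ_apply hbr ha, ZZ_apply hbr hb, ZZ_apply hbr hb,
    ZZ_apply hbr ha, ZZ_apply hbr (by omega)]
  exact h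

include hbr in
lemma ZZ_zero {M l : ℕ} (h1 : 1 ≤ l) (hl : M ≤ l) : ZZ E M l = 0 := by
  apply LinearMap.ext
  intro v
  apply Subtype.ext
  rw [ZZ_apply hbr h1]
  exact v.2 l hl

include hbr in
lemma ZZ_res {M l : ℕ} (hl : 1 ≤ l) (a : Cz E) : res E M a * ZZ E M l = ZZ E M l * res E M a := by
  apply LinearMap.ext
  intro v
  apply Subtype.ext
  rw [Module.End.mul_apply, Module.End.mul_apply, res_apply, ZZ_apply hbr hl, ZZ_apply hbr hl,
    res_apply]
  exact LinearMap.congr_fun (Cz_comm a l) (v : V)

variable (E) in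
/-- The generators. -/
def GG (M j : ℕ) (B : Subalgebra K (Module.End K V)) : Set (Module.End K (ℕ →₀ UU E M)) :=
  {x | (∃ b : Cz E, (b : Module.End K V) ∈ B ∧ x = hat E M b) ∨ x = yh K (UU E M) ∨
    ∃ l, 1 ≤ l ∧ M ≤ l + j ∧ x = hU K (UU E M) (ZZ E M l)}

include hbr in
lemma GG_chain {n : ℕ} {B : Subalgebra K (Module.End K V)} (hB : Ch K n B) (hBC : B ≤ Cz E)
    (M j : ℕ) : ∃ m, Ch K m (Algebra.adjoin K (GG E M j B)) := by
  induction j with
  | zero =>
    have h1 := Ch.map (E' := Module.End K (ℕ →₀ UU E M)) (hat E M) (Ch.comap hBC hB)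
    set G0 : Set (Module.End K (ℕ →₀ UU E M)) := SetLike.coe (Subalgebra.map (hat E M)
      (Subalgebra.comap (Cz E).val B)) with hG0
    have h2 : Algebra.adjoin K G0 = (B.comap (Cz E).val).map (hat E M) := Algebra.adjoin_eq _
    have h3 : Ch K (n + 1) (Algebra.adjoin K (insert (yh K (UU E M)) G0)) := by
      apply Ch.add
      · rw [h2]; exact h1
      · rintro _ ⟨b, -, rfl⟩
        have : yh K (UU E M) * hat E M b - hat E M b * yh K (UU E M) = 0 :=
          sub_eq_zero.mpr (yh_hU _)
        rw [show ((hat E M : Cz E →ₐ[K] _) : Cz E →+* _) b = hat E M b from rfl, this]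
        exact Subalgebra.zero_mem _
    refine ⟨n + 1, ?_⟩
    convert h3 using 1
    apply le_antisymm
    · rw [Algebra.adjoin_le_iff]
      rintro x (⟨b, hb, rfl⟩ | rfl | ⟨l, h1, hl, rfl⟩)
      · apply Algebra.subset_adjoin
        right
        exact ⟨b, hb, rfl⟩
      · exact Algebra.subset_adjoin (Set.mem_insert _ _)
      · rw [ZZ_zero hbr h1 (by omega), map_zero]
        exact Subalgebra.zero_mem _
    · apply Algebra.adjoin_mono
      rintro x (rfl | ⟨b, hb, rfl⟩)
      · right; left; rfl
      · left; exact ⟨b, hb, rfl⟩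
  | succ j ih =>
    obtain ⟨m, hm⟩ := ih
    by_cases hj : j + 2 ≤ M
    · obtain ⟨l, hl⟩ : ∃ l, M = l + j + 1 := ⟨M - j - 1, by omega⟩
      have hl1 : 1 ≤ l := by omega
      refine ⟨m + 1, ?_⟩
      have h4 : GG E M (j + 1) B = insert (hU K (UU E M) (ZZ E M l)) (GG E M j B) := by
        ext x
        constructor
        · rintro (h | h | ⟨l', h1, h2, h3⟩)
          · right; left; exact h
          · right; right; left; exact h
          · by_cases hll : l' = l
            · left; rw [h3, hll]
            · right; right; right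
              exact ⟨l', h1, by omega, h3⟩
        · rintro (h | h | h | ⟨l', h1, h2, h3⟩)
          · right; right; exact ⟨l, hl1, by omega, h⟩
          · left; exact h
          · right; left; exact h
          · right; right; exact ⟨l', h1, by omega, h3⟩
      rw [h4]
      apply Ch.add hm
      rintro g (⟨b, -, rfl⟩ | rfl | ⟨l', h1, h2, rfl⟩)
      · have : hU K (UU E M) (ZZ E M l) * hat E M b = hat E M b * hU K (UU E M) (ZZ E M l) := by
          change hU K (UU E M) (ZZ E M l) * hU K (UU E M) (res E M b) =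
            hU K (UU E M) (res E M b) * hU K (UU E M) (ZZ E M l)
          rw [← map_mul, ← map_mul, ZZ_res hbr hl1]
        rw [this, sub_self]
        exact Subalgebra.zero_mem _
      · rw [yh_hU, sub_self]
        exact Subalgebra.zero_mem _
      · have h5 : hU K (UU E M) (ZZ E M l) * hU K (UU E M) (ZZ E M l') -
            hU K (UU E M) (ZZ E M l') * hU K (UU E M) (ZZ E M l) =
            ((l' : K) - l) • hU K (UU E M) (ZZ E M (l + l' - 1)) := by
          rw [← map_mul, ← map_mul]
          refine (map_sub (hU K (UU E M)) _ _).symm.trans ?_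
          rw [ZZ_br hbr hl1 h1, map_smul]
        rw [h5]
        apply Subalgebra.smul_mem
        apply Algebra.subset_adjoin
        right; right
        exact ⟨l + l' - 1, by omega, by omega, rfl⟩
    · refine ⟨m, ?_⟩
      have h4 : GG E M (j + 1) B = GG E M j B := by
        ext x
        constructor
        · rintro (h | h | ⟨l', h1, h2, h3⟩)
          · left; exact h
          · right; left; exact h
          · right; right; exact ⟨l', h1, by omega, h3⟩
        · rintro (h | h | ⟨l', h1, h2, h3⟩)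
          · left; exact h
          · right; left; exact h
          · right; right; exact ⟨l', h1, by omega, h3⟩
      rw [h4]
      exact hm

include hbr in
/-- One point. -/
theorem point_step [Nontrivial V] {n : ℕ} {B : Subalgebra K (Module.End K V)} (hB : Ch K n B)
    (hsm : ∀ v, ∃ M, ∀ l, M ≤ l → E l v = 0) (hBC : B ≤ Cz E) :
    ∃ (W : Type) (_ : AddCommGroup W) (_ : Module K W) (Φ : W →ₗ[K] V)
      (hat : Cz E →ₐ[K] Module.End K W) (S : Subalgebra K (Module.End K W)) (m : ℕ),
      Nontrivial W ∧ Function.Injective Φ ∧ (∀ a w, Φ (hat a w) = (a : Module.End K V) (Φ w)) ∧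
      Ch K m S ∧ (∀ b : Cz E, (b : Module.End K V) ∈ B → hat b ∈ S) ∧
      (∀ l, ∃ x ∈ S, ∀ w, Φ (x w) = E l (Φ w)) ∧
      (∀ a : Cz E, (∀ b ∈ B, (a : Module.End K V) * b = b * a) → ∀ x ∈ S, hat a * x = x * hat a) := by
  classical
  have hex : ∃ M, UU E M ≠ ⊥ := by
    obtain ⟨v, hv⟩ := exists_ne (0 : V)
    obtain ⟨M, hM⟩ := hsm v
    refine ⟨M, fun h => hv ?_⟩
    have : v ∈ UU E M := hM
    rwa [h, Submodule.mem_bot] at this
  rcases hfind : Nat.find hex with _ | m
  · have h0 : UU E 0 ≠ ⊥ := by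
      have := Nat.find_spec hex
      rwa [hfind] at this
    refine ⟨UU E 0, inferInstance, inferInstance, (UU E 0).subtype, res E 0,
      (B.comap (Cz E).val).map (res E 0), n, (Submodule.nontrivial_iff_ne_bot).mpr h0,
      Subtype.val_injective, fun a w => rfl, (hB.comap hBC).map _, fun b hb => ⟨b, hb, rfl⟩, ?_, ?_⟩
    · intro l
      exact ⟨0, Subalgebra.zero_mem _, fun w => by
        rw [LinearMap.zero_apply, map_zero]
        exact (w.2 l (Nat.zero_le _)).symm⟩
    · rintro a ha _ ⟨b, hb, rfl⟩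
      change res E 0 a * res E 0 b = res E 0 b * res E 0 a
      rw [← map_mul, ← map_mul]
      congr 1
      exact Subtype.ext (ha _ hb)
  · have h0 : UU E (m + 1) ≠ ⊥ := by
      have := Nat.find_spec hex
      rwa [hfind] at this
    have hmin : ∀ v ∈ UU E (m + 1), E m v = 0 → v = 0 := by
      intro v hv h
      have h1 : UU E m = ⊥ := by
        by_contra hne
        exact Nat.find_min hex (m := m) (by omega) hne
      have h2 : v ∈ UU E m := by
        intro l hl
        rcases Nat.eq_or_lt_of_le hl with rfl | hl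
        · exact h
        · exact hv l hl
      rwa [h1, Submodule.mem_bot] at h2
    set M := m + 1 with hM
    obtain ⟨q, hq⟩ := GG_chain hbr hB hBC M M
    set S := Algebra.adjoin K (insert (Dh K (UU E M)) (GG E M M B)) with hS
    have hGS : ∀ x ∈ GG E M M B, x ∈ S := fun x hx => Algebra.subset_adjoin (Set.mem_insert_of_mem _ hx)
    have hDS : Dh K (UU E M) ∈ S := Algebra.subset_adjoin (Set.mem_insert _ _)
    have : Nontrivial (UU E M) := (Submodule.nontrivial_iff_ne_bot).mpr h0
    refine ⟨ℕ →₀ UU E M, inferInstance, inferInstance, Ph E M, hat E M, S, q + 1,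
      inferInstance, Ph_inj hbr hmin, Ph_hat M, ?_, ?_, ?_, ?_⟩
    · apply Ch.add hq
      rintro g (⟨b, -, rfl⟩ | rfl | ⟨l, h1, -, rfl⟩)
      · have : Dh K (UU E M) * hat E M b = hat E M b * Dh K (UU E M) := Dh_hU _
        rw [this, sub_self]
        exact Subalgebra.zero_mem _
      · have h5 : Dh K (UU E M) * yh K (UU E M) - yh K (UU E M) * Dh K (UU E M) = 1 := by
          rw [Dh_yh]
          exact add_sub_cancel_left _ _
        rw [h5]
        exact Subalgebra.one_mem _
      · rw [Dh_hU, sub_self]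
        exact Subalgebra.zero_mem _
    · intro b hb
      exact hGS _ (Or.inl ⟨b, hb, rfl⟩)
    · intro l
      refine ⟨Eh (ZZ E M) l, ?_, Ph_Eh hbr M l⟩
      have hy : yh K (UU E M) ∈ S := hGS _ (Or.inr (Or.inl rfl))
      unfold Eh
      refine S.add_mem (S.sum_mem fun j hj => S.smul_mem (S.mul_mem (S.pow_mem hy j)
        (hGS _ (Or.inr (Or.inr ⟨l - j, ?_, ?_, rfl⟩)))) _) (S.mul_mem hDS (S.pow_mem hy l))
      · have := Finset.mem_range.mp hj
        omega
      · omega
    · intro a ha x hx
      have h1 : S ≤ Subalgebra.centralizer K {hat E M a} := by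
        rw [hS, Algebra.adjoin_le_iff]
        have key : ∀ z, hat E M a * z = z * hat E M a →
            z ∈ (Subalgebra.centralizer K {hat E M a} : Set (Module.End K (ℕ →₀ UU E M))) := by
          intro z hz
          rw [SetLike.mem_coe, Subalgebra.mem_centralizer_iff]
          rintro _ rfl
          exact hz
        rintro z (rfl | ⟨b, hb, rfl⟩ | rfl | ⟨l, h1, -, rfl⟩)
        · exact key _ (Dh_hU _).symm
        · apply key
          rw [← map_mul, ← map_mul]
          congr 1
          exact Subtype.ext (ha _ hb)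
        · exact key _ (yh_hU _).symm
        · apply key
          change hU K (UU E M) (res E M a) * hU K (UU E M) (ZZ E M l) =
            hU K (UU E M) (ZZ E M l) * hU K (UU E M) (res E M a)
          rw [← map_mul, ← map_mul, ZZ_res hbr h1]
      exact (Subalgebra.mem_centralizer_iff K).mp (h1 hx) _ rfl

end one

section multi
variable {K : Type} [Field K] [CharZero K]

/-- Several points. -/
theorem multi {ι : Type} (s : Finset ι) : ∀ (V : Type) [AddCommGroup V] [Module K V] [Nontrivial V]
    (n : ℕ) (B : Subalgebra K (Module.End K V)) (E : ι → ℕ → Module.End K V), Ch K n B →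
    (∀ c ∈ s, ∀ l, ∀ b ∈ B, b * E c l = E c l * b) →
    (∀ c ∈ s, ∀ c' ∈ s, c ≠ c' → ∀ l l', E c l * E c' l' = E c' l' * E c l) →
    (∀ c ∈ s, ∀ a b, E c a * E c b - E c b * E c a = ((b : K) - a) • E c (a + b - 1)) →
    (∀ c ∈ s, ∀ v, ∃ M, ∀ l, M ≤ l → E c l v = 0) →
    ∃ (W : Type) (_ : AddCommGroup W) (_ : Module K W) (Φ : W →ₗ[K] V)
      (S : Subalgebra K (Module.End K W)) (m : ℕ),
      Nontrivial W ∧ Function.Injective Φ ∧ Ch K m S ∧
      (∀ b ∈ B, ∃ x ∈ S, ∀ w, Φ (x w) = b (Φ w)) ∧
      (∀ c ∈ s, ∀ l, ∃ x ∈ S, ∀ w, Φ (x w) = E c l (Φ w)) := by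
  classical
  induction s using Finset.induction_on with
  | empty =>
    intro V _ _ _ n B E hB _ _ _ _
    exact ⟨V, inferInstance, inferInstance, LinearMap.id, B, n, inferInstance,
      Function.injective_id, hB, fun b hb => ⟨b, hb, fun w => rfl⟩,
      fun c hc => absurd hc (Finset.notMem_empty c)⟩
  | insert c s hcs ih =>
    intro V _ _ _ n B E hB hBE hEE hbr hsm
    have hc := Finset.mem_insert_self c s
    have hs : ∀ c' ∈ s, c' ∈ insert c s := fun c' h => Finset.mem_insert_of_mem h
    have hne : ∀ c' ∈ s, c' ≠ c := fun c' h h' => hcs (h' ▸ h)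
    obtain ⟨W, _, _, Φ, hat, S, m, hW, hΦ, hhat, hS, hBS, hES, hcomm⟩ :=
      point_step (hbr c hc) hB (hsm c hc) (fun b hb => mem_Cz fun l => hBE c hc l b hb)
    have hmem : ∀ c' ∈ s, ∀ l, E c' l ∈ Cz (E c) := fun c' h l =>
      mem_Cz fun l' => hEE c' (hs c' h) c hc (hne c' h) l l'
    set E' : ι → ℕ → Module.End K W := fun c' l =>
      if h : c' ∈ s then hat ⟨E c' l, hmem c' h l⟩ else 0 with hE'
    have hE'eq : ∀ c' (h : c' ∈ s) l, E' c' l = hat ⟨E c' l, hmem c' h l⟩ := by
      intro c' h l
      rw [hE']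
      exact dif_pos h
    obtain ⟨W', _, _, Φ', S', m', hW', hΦ', hS', hBS', hES'⟩ := ih W m S E' hS
      (by
        intro c' h l b hb
        rw [hE'eq c' h]
        refine (hcomm _ ?_ b hb).symm
        intro b' hb'
        exact (hBE c' (hs c' h) l b' hb').symm)
      (by
        intro c1 h1 c2 h2 h12 l l'
        rw [hE'eq c1 h1, hE'eq c2 h2, ← map_mul, ← map_mul]
        congr 1
        exact Subtype.ext (hEE c1 (hs c1 h1) c2 (hs c2 h2) h12 l l'))
      (by
        intro c' h a b
        rw [hE'eq c' h, hE'eq c' h, hE'eq c' h, ← map_mul, ← map_mul, ← map_sub, ← map_smul]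
        congr 1
        exact Subtype.ext (hbr c' (hs c' h) a b))
      (by
        intro c' h v
        obtain ⟨M, hM⟩ := hsm c' (hs c' h) (Φ v)
        refine ⟨M, fun l hl => ?_⟩
        rw [hE'eq c' h]
        apply hΦ
        rw [hhat, map_zero]
        exact hM l hl)
    refine ⟨W', inferInstance, inferInstance, Φ ∘ₗ Φ', S', m', hW', hΦ.comp hΦ', hS', ?_, ?_⟩
    · intro b hb
      have hbC : b ∈ Cz (E c) := mem_Cz fun l => hBE c hc l b hb
      obtain ⟨x, hx, hx'⟩ := hBS' (hat ⟨b, hbC⟩) (hBS _ hb)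
      refine ⟨x, hx, fun w => ?_⟩
      rw [LinearMap.comp_apply, hx', hhat]
      rfl
    · intro c' hc' l
      rcases Finset.mem_insert.mp hc' with rfl | h
      · obtain ⟨x, hx, hx'⟩ := hES l
        obtain ⟨x', hx1, hx2⟩ := hBS' x hx
        refine ⟨x', hx1, fun w => ?_⟩
        rw [LinearMap.comp_apply, hx2, hx']
        rfl
      · obtain ⟨x, hx, hx'⟩ := hES' c' h l
        refine ⟨x, hx, fun w => ?_⟩
        rw [LinearMap.comp_apply, hx', hE'eq c' h, hhat]
        rfl

end multi

end Pool.Agent.R693.C
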