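import Pool.Agent.R693.C.Conc
import Pool.Agent.R693.C.Step
import Pool.Agent.R693.C.Loc
import Pool.Agent.R693.R.Surj1
import Pool.Agent.R693.W.VirAcc

/-!
Prime ideals of the enveloping algebra of `W_{≥-1}` are kernels of maps to algebras with a chain of
generators, and (given the chain theorem) completely prime.
-/

set_option autoImplicit false
set_option linter.unusedSectionVars false

namespace Pool.Agent.R693.C

open Polynomial (X C monomial derivative)
open Pool.Agent.R693.W (IsW Lab Fl wd wd_nil wd_cons IsPrimeT exists_prime_disj)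
open Pool.Agent.R693.O
open Pool.Agent.R693.Vir (Quo quo quo_surj quo_eq_zero)

section br
variable {F K A V : Type} [Field F] [CharZero F] [Field K] [CharZero K] [Ring A] [Algebra F A]
  [AddCommGroup V] [Module K V] {e : ℕ → A}

lemma br_gen (he : IsW F e) (μ : A →+* Module.End K V) (m n : ℕ) :
    μ (e m) * μ (e n) - μ (e n) * μ (e m) = ((n : K) - m) • μ (e (m + n - 1)) := by
  by_cases hmn : m = n
  · subst hmn
    rw [sub_self, sub_self, zero_smul]
  · have h1 := he m n (m + n - 1) (by
      have : (Lab.one : ℕ) = 1 := rfl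
      rw [this]; omega)
    have h2 := congrArg μ h1
    have h3 : ((Lab.c n - Lab.c m : ℤ) : F) • e (m + n - 1) = ((n : ℤ) - m) • e (m + n - 1) := by
      rw [Int.cast_smul_eq_zsmul]
      rfl
    rw [h3, map_sub, map_mul, map_mul, map_zsmul] at h2
    rw [h2, ← Int.cast_smul_eq_zsmul K]
    push_cast
    rfl

lemma rhoP_br (he : IsW F e) (μ : A →+* Module.End K V) (p q : Polynomial K) :
    rhoP (fun j => μ (e j)) p * rhoP (fun j => μ (e j)) q -
      rhoP (fun j => μ (e j)) q * rhoP (fun j => μ (e j)) p =
      rhoP (fun j => μ (e j)) (p * derivative q - derivative p * q) := by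
  induction p using Polynomial.induction_on' with
  | add p p' hp hp' =>
    have h1 : (p + p') * derivative q - derivative (p + p') * q =
        (p * derivative q - derivative p * q) + (p' * derivative q - derivative p' * q) := by
      rw [Polynomial.derivative_add]; ring
    rw [h1, map_add, map_add, ← hp, ← hp', add_mul, mul_add]
    abel
  | monomial m a =>
    induction q using Polynomial.induction_on' with
    | add q q' hq hq' =>
      have h1 : monomial m a * derivative (q + q') - derivative (monomial m a) * (q + q') =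
          (monomial m a * derivative q - derivative (monomial m a) * q) +
          (monomial m a * derivative q' - derivative (monomial m a) * q') := by
        rw [Polynomial.derivative_add]; ring
      rw [h1, map_add, map_add, ← hq, ← hq', add_mul, mul_add]
      abel
    | monomial n b =>
      rw [rhoP_monomial, rhoP_monomial, smul_mul_smul_comm, smul_mul_smul_comm, mul_comm b a,
        ← smul_sub, br_gen he, Polynomial.derivative_monomial, Polynomial.derivative_monomial,
        Polynomial.monomial_mul_monomial, Polynomial.monomial_mul_monomial, smul_smul]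
      rcases m with _ | m
      · rcases n with _ | n
        · simp
        · rw [Nat.cast_zero, mul_zero, zero_mul, Polynomial.monomial_zero_right, sub_zero,
            sub_zero, rhoP_monomial, mul_assoc]
          congr 3
      · rcases n with _ | n
        · rw [Nat.cast_zero, mul_zero, mul_zero, Polynomial.monomial_zero_right, zero_sub, zero_sub,
            map_neg, rhoP_monomial, ← neg_smul]
          congr 1
          ring
        · rw [show m + 1 + (n + 1 - 1) = m + n + 1 by omega,
            show m + 1 - 1 + (n + 1) = m + n + 1 by omega, ← map_sub, rhoP_monomial,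
            show m + 1 + (n + 1) - 1 = m + n + 1 by omega]
          congr 1
          ring

end br

section rep
variable {F A : Type} [Field F] [CharZero F] [Ring A] [Algebra F A] {e : ℕ → A}

/-- The representation in an algebra with a chain of generators. -/
theorem chain_rep (he : IsW F e) (hgen : ∀ x : A, ∃ k, x ∈ Fl F e k) {P : TwoSidedIdeal A}
    (hfib : FibC F A P e) :
    ∃ (K W : Type) (_ : Field K) (_ : CharZero K) (_ : AddCommGroup W) (_ : Module K W)
      (S : Subalgebra K (Module.End K W)) (m : ℕ) (ψ : A →+* S),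
      Ch K m S ∧ ∀ a, ψ a = 0 ↔ a ∈ P := by
  obtain ⟨K, V, _, _, _, _, _, φ, μ, s, hφ, hP0, hP1, hsm⟩ := hfib
  set ρ := rhoP (fun j => μ (e j)) with hρ
  have hbr := rhoP_br (K := K) (V := V) he μ
  have hsm' : ∀ v : V, ∃ M, Kl s ρ M v := hsm
  obtain ⟨W, _, _, Φ, S, m, hW, hΦ, hS, -, hES⟩ := multi s V 0 ⊥ (fun c l => EE hsm' c l) rfl
    (by
      intro c _ l b hb
      obtain ⟨r, rfl⟩ := Algebra.mem_bot.mp hb
      exact Algebra.commutes r _)
    (fun c hc c' hc' hcc l l' => EE_comm hsm' hbr hcc hc hc' l l')
    (fun c _ a b => EE_br hsm' hbr c a b)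
    (fun c _ v => by
      obtain ⟨M, hM⟩ := EE_kill hsm' v
      exact ⟨M, fun l hl => hM c l hl⟩)
  let T : Subalgebra K (Module.End K V) :=
    { carrier := {t | ∃ x ∈ S, ∀ w, Φ (x w) = t (Φ w)}
      mul_mem' := by
        rintro t t' ⟨x, hx, h⟩ ⟨x', hx', h'⟩
        exact ⟨x * x', S.mul_mem hx hx', fun w => by
          rw [Module.End.mul_apply, Module.End.mul_apply, h, h']⟩
      add_mem' := by
        rintro t t' ⟨x, hx, h⟩ ⟨x', hx', h'⟩
        exact ⟨x + x', S.add_mem hx hx', fun w => by
          rw [LinearMap.add_apply, LinearMap.add_apply, map_add, h, h']⟩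
      algebraMap_mem' := by
        intro r
        exact ⟨algebraMap K _ r, S.algebraMap_mem r, fun w => by
          rw [Module.algebraMap_end_apply, Module.algebraMap_end_apply, map_smul]⟩ }
  have hT : ∀ t, t ∈ T ↔ ∃ x ∈ S, ∀ w, Φ (x w) = t (Φ w) := fun t => Iff.rfl
  have hTe : ∀ j, μ (e j) ∈ T := by
    intro j
    have h1 : μ (e j) = ρ (monomial j 1) := by
      rw [hρ, rhoP_monomial, one_smul]
    rw [h1, rho_EE hsm']
    refine T.sum_mem fun c hc => ?_
    unfold Polynomial.sum
    exact T.sum_mem fun i _ => T.smul_mem ((hT _).mpr (hES c hc i)) _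
  have hTA : ∀ a, μ a ∈ T := by
    intro a
    obtain ⟨k, hk⟩ := hgen a
    unfold Fl at hk
    induction hk using Submodule.span_induction with
    | mem z hz =>
      obtain ⟨w, -, rfl⟩ := hz
      induction w with
      | nil => rw [wd_nil, map_one]; exact T.one_mem
      | cons v w ih => rw [wd_cons, map_mul]; exact T.mul_mem (hTe v) ih
    | zero => rw [map_zero]; exact T.zero_mem
    | add y z _ _ hy hz => rw [map_add]; exact T.add_mem hy hz
    | smul r y _ hy =>
      rw [Algebra.smul_def, map_mul, hφ]
      exact T.mul_mem (T.algebraMap_mem _) hy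
  choose x hxS hx using fun a => (hT _).mp (hTA a)
  have huniq : ∀ y z : Module.End K W, (∀ w, Φ (y w) = Φ (z w)) → y = z := fun y z h =>
    LinearMap.ext fun w => hΦ (h w)
  refine ⟨K, W, inferInstance, inferInstance, inferInstance, inferInstance, S, m,
    { toFun := fun a => ⟨x a, hxS a⟩
      map_one' := Subtype.ext (huniq _ _ fun w => by
        rw [hx, map_one]; rfl)
      map_mul' := fun a b => Subtype.ext (huniq _ _ fun w => by
        rw [hx, map_mul, Module.End.mul_apply]
        change _ = Φ (x a (x b w))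
        rw [hx, hx])
      map_zero' := Subtype.ext (huniq _ _ fun w => by
        rw [hx, map_zero]
        change _ = Φ ((0 : Module.End K W) w)
        rw [LinearMap.zero_apply, LinearMap.zero_apply, map_zero])
      map_add' := fun a b => Subtype.ext (huniq _ _ fun w => by
        rw [hx, map_add, LinearMap.add_apply]
        change _ = Φ (x a w + x b w)
        rw [map_add, hx, hx]) }, hS, fun a => ⟨fun h => ?_, fun h => ?_⟩⟩
  · have h1 : x a = 0 := congrArg Subtype.val h
    obtain ⟨w, hw⟩ := exists_ne (0 : W)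
    refine hP1 (Φ w) (fun h => hw (hΦ (by rw [h, map_zero]))) a fun b => ?_
    rw [← hx b w, ← hx a, h1, LinearMap.zero_apply, map_zero]
  · apply Subtype.ext
    apply huniq
    intro w
    change Φ (x a w) = Φ ((0 : Module.End K W) w)
    rw [hx, hP0 a h, LinearMap.zero_apply, LinearMap.zero_apply, map_zero]

/-- The chain theorem, as a hypothesis. -/
def ChainThm : Prop := ∀ (n : ℕ) (K : Type) [Field K] [CharZero K] (E : Type) [Ring E] [Algebra K E]
  (R : Subalgebra K E), Ch K n R → PrimeS R → DomS R

/-- Completely prime. -/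
theorem cp_of_rep (hO : ChainThm) {P : TwoSidedIdeal A} (hP : IsPrimeT P)
    (hrep : ∃ (K W : Type) (_ : Field K) (_ : CharZero K) (_ : AddCommGroup W) (_ : Module K W)
      (S : Subalgebra K (Module.End K W)) (m : ℕ) (ψ : A →+* S),
      Ch K m S ∧ ∀ a, ψ a = 0 ↔ a ∈ P) {a b : A} (hab : a * b ∈ P) : a ∈ P ∨ b ∈ P := by
  obtain ⟨K, W, _, _, _, _, S, m, ψ, hS, hψ⟩ := hrep
  obtain ⟨Q, hQ, -, hQd⟩ := exists_prime_disj (A := S) (P0 := ⊥) (S := {s | ∃ u, u ∉ P ∧ s = ψ u})
    ⟨ψ 1, 1, by
      intro h
      apply hP.1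
      rwa [← TwoSidedIdeal.one_mem_iff], rfl⟩
    (by
      rintro _ ⟨u, hu, rfl⟩ _ ⟨v, hv, rfl⟩
      by_contra hcon
      push Not at hcon
      have h1 : ∀ x, u * x * v ∈ P := by
        intro x
        by_contra hx
        exact hcon (ψ x) ⟨u * x * v, hx, by rw [map_mul, map_mul]⟩
      rcases hP.elt h1 with h | h
      · exact hu h
      · exact hv h)
    (by
      rintro _ ⟨u, hu, rfl⟩ h
      rw [TwoSidedIdeal.mem_bot] at h
      exact hu ((hψ u).mp h))
  have hQP : ∀ u, ψ u ∈ Q ↔ u ∈ P := by
    intro u
    constructor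
    · intro h
      by_contra hu
      exact hQd _ ⟨u, hu, rfl⟩ h
    · intro h
      rw [(hψ u).mpr h]
      exact Q.zero_mem
  have h1 : Ch K m (S.comap S.val) := Ch.comap le_rfl hS
  have h2 : Ch K m ((S.comap S.val).map (quo (F := K) Q)) := Ch.map (E' := Quo Q) _ h1
  have hmem : ∀ z : Quo Q, z ∈ (S.comap S.val).map (quo (F := K) Q) := by
    intro z
    obtain ⟨y, rfl⟩ := quo_surj (F := K) Q z
    exact ⟨y, y.2, rfl⟩
  have h3 := hO m K (Quo Q) _ h2
  have h4 : PrimeS ((S.comap S.val).map (quo (F := K) Q)) := by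
    refine ⟨?_, ?_⟩
    · intro h
      apply hQ.1
      rw [← TwoSidedIdeal.one_mem_iff, ← quo_eq_zero (F := K) Q, map_one]
      exact h
    · intro y _ z _ h
      obtain ⟨y, rfl⟩ := quo_surj (F := K) Q y
      obtain ⟨z, rfl⟩ := quo_surj (F := K) Q z
      rw [quo_eq_zero, quo_eq_zero]
      apply hQ.elt
      intro x
      rw [← quo_eq_zero (F := K) Q, map_mul, map_mul]
      exact h _ (hmem _)
  have h5 := h3 h4 (quo (F := K) Q (ψ a)) (hmem _) (quo (F := K) Q (ψ b)) (hmem _) (by
    rw [← map_mul, ← map_mul, quo_eq_zero, hQP]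
    exact hab)
  rw [quo_eq_zero, quo_eq_zero, hQP, hQP] at h5
  exact h5

/-- Nonzero prime ideals of the enveloping algebra of `W_{≥-1}` are completely prime. -/
theorem cp_pos (hO : ChainThm) (he : IsW F e) (hgen : ∀ x : A, ∃ k, x ∈ Fl F e k)
    {P : TwoSidedIdeal A} (hP : IsPrimeT P) (h0 : P ≠ ⊥) {a b : A} (hab : a * b ∈ P) :
    a ∈ P ∨ b ∈ P :=
  cp_of_rep hO hP (chain_rep he hgen (conc he hgen hP h0)) hab

end rep

end Pool.Agent.R693.C
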